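import Mathlib

namespace Pool.Agent.Lib.MP_f09365_an

open Complex
open scoped Real

variable {A : Type*} [CStarAlgebra A]

lemma exists_root (w : A) (hw : w ∈ unitary A) (h1 : IsUnit (1 + w)) (N : ℕ) (hN : 0 < N) :
    ∃ r m : A, r ∈ unitary A ∧ r ^ N = w ∧ ‖r - 1‖ ≤ π / N ∧ r - 1 = (w - 1) * m ∧
      r - 1 = m * (w - 1) := by
  haveI : IsStarNormal w := isStarNormal_of_mem_unitary hw
  have hN' : (N : ℂ) ≠ 0 := by exact_mod_cast hN.ne'
  have hNr : (0 : ℝ) < N := by exact_mod_cast hN
  have hm1 : (-1 : ℂ) ∉ spectrum ℂ w := by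
    rw [spectrum.notMem_iff]
    have : algebraMap ℂ A (-1) - w = -(1 + w) := by simp; abel
    rw [this]; exact h1.neg
  have hslit : spectrum ℂ w ⊆ slitPlane :=
    (Unitary.spectrum_subset_slitPlane_iff_norm_lt_two hw).mpr
      ((Unitary.norm_sub_one_lt_two_iff hw).mpr hm1)
  have harg : ContinuousOn arg (spectrum ℂ w) := continuousOn_arg.mono hslit
  set f : ℂ → ℂ := fun z => exp (I * ((arg z / N : ℝ) : ℂ)) with hf
  have hfc : ContinuousOn f (spectrum ℂ w) := by
    refine continuous_exp.comp_continuousOn (continuousOn_const.mul ?_)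
    exact continuous_ofReal.comp_continuousOn (harg.div_const _)
  have hfN : ∀ z ∈ spectrum ℂ w, f z ^ N = z := by
    intro z hz
    have hz1 : ‖z‖ = 1 := spectrum.norm_eq_one_of_unitary hw hz
    simp only [hf]
    rw [← exp_nat_mul]
    have : (N : ℂ) * (I * ((arg z / N : ℝ) : ℂ)) = arg z * I := by
      push_cast; field_simp
    rw [this]
    have h2 := norm_mul_exp_arg_mul_I z
    rw [hz1] at h2
    simpa using h2
  set g : ℂ → ℂ := fun z => ∑ j ∈ Finset.range N, f z ^ j with hg
  have hgc : ContinuousOn g (spectrum ℂ w) :=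
    continuousOn_finset_sum _ fun j _ => hfc.pow j
  have hg0 : ∀ z ∈ spectrum ℂ w, g z ≠ 0 := by
    intro z hz h0
    have h2 : g z * (f z - 1) = z - 1 := by
      simp only [hg]; rw [geom_sum_mul, hfN z hz]
    rw [h0, zero_mul] at h2
    have h3 : z = 1 := by linear_combination -h2
    subst h3
    simp [hg, hf] at h0
    omega
  have hgi : ContinuousOn (fun z => (g z)⁻¹) (spectrum ℂ w) := hgc.inv₀ hg0
  have key : ∀ z ∈ spectrum ℂ w, f z - 1 = (z - 1) * (g z)⁻¹ := by
    intro z hz
    have h2 : g z * (f z - 1) = z - 1 := by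
      simp only [hg]; rw [geom_sum_mul, hfN z hz]
    have := hg0 z hz
    rw [← h2]; field_simp
  have e1 : cfc f w - 1 = cfc (fun z => f z - 1) w := by
    rw [cfc_sub _ _ w hfc continuousOn_const, cfc_const_one ℂ w]
  have e2 : w - 1 = cfc (fun z : ℂ => z - 1) w := by
    rw [cfc_sub _ _ w (continuousOn_id' _) continuousOn_const, cfc_const_one ℂ w, cfc_id' ℂ w]
  refine ⟨cfc f w, cfc (fun z => (g z)⁻¹) w, ?_, ?_, ?_, ?_, ?_⟩
  · have hs : ∀ z, star (f z) * f z = 1 := fun z => by
      simp only [hf, Complex.star_def]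
      rw [← exp_conj, ← exp_add]
      simp
    rw [Unitary.mem_iff, ← cfc_star, ← cfc_mul _ _ w hfc.star hfc, ← cfc_mul _ _ w hfc hfc.star]
    constructor
    · simp only [hs]; exact cfc_const_one ℂ w
    · simp only [mul_comm (f _), hs]; exact cfc_const_one ℂ w
  · rw [← cfc_pow f N w hfc]
    conv_rhs => rw [← cfc_id' ℂ w]
    exact cfc_congr hfN
  · rw [e1]
    refine norm_cfc_le (by positivity) fun z _ => ?_
    simp only [hf]
    refine (Real.norm_exp_I_mul_ofReal_sub_one_le).trans ?_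
    rw [Real.norm_eq_abs, abs_div, abs_of_pos hNr]
    gcongr
    exact abs_arg_le_pi z
  · rw [e1, e2, ← cfc_mul _ _ w (by fun_prop) hgi]
    exact cfc_congr key
  · rw [e1, e2, ← cfc_mul _ _ w hgi (by fun_prop)]
    exact cfc_congr fun z hz => by simp only [key z hz, mul_comm]

lemma norm_sum_le_of_orth {ι : Type*} (s : Finset ι) (y : ι → A) {δ : ℝ} (hδ : 0 ≤ δ)
    (hsa : ∀ i ∈ s, IsSelfAdjoint (y i)) (ho : ∀ i ∈ s, ∀ j ∈ s, i ≠ j → y i * y j = 0)
    (hn : ∀ i ∈ s, ‖y i‖ ≤ δ) : ‖∑ i ∈ s, y i‖ ≤ δ := by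
  classical
  induction s using Finset.induction with
  | empty => simpa using hδ
  | insert j s hj ih =>
    rw [Finset.sum_insert hj, IsSelfAdjoint.norm_add_eq_max (hsa j (by simp))
      (isSelfAdjoint_sum _ fun i hi => hsa i (by simp [hi]))]
    · exact max_le (hn j (by simp)) (ih (fun i hi => hsa i (by simp [hi]))
        (fun i hi k hk => ho i (by simp [hi]) k (by simp [hk])) (fun i hi => hn i (by simp [hi])))
    · rw [Finset.mul_sum]
      exact Finset.sum_eq_zero fun i hi => ho j (by simp) i (by simp [hi]) (fun e => hj (e ▸ hi))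

/-- conjugation by a power -/
def cj (u : A) (j : ℕ) (d : A) : A := u ^ j * d * star u ^ j

/-- elements localised under `e` -/
def Her (e d : A) : Prop := e * d = d ∧ d * e = d

lemma Her.add {e a b : A} (ha : Her e a) (hb : Her e b) : Her e (a + b) :=
  ⟨by rw [mul_add, ha.1, hb.1], by rw [add_mul, ha.2, hb.2]⟩
lemma Her.sub {e a b : A} (ha : Her e a) (hb : Her e b) : Her e (a - b) :=
  ⟨by rw [mul_sub, ha.1, hb.1], by rw [sub_mul, ha.2, hb.2]⟩
lemma Her.mul {e a b : A} (ha : Her e a) (hb : Her e b) : Her e (a * b) :=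
  ⟨by rw [← mul_assoc, ha.1], by rw [mul_assoc, hb.2]⟩
lemma Her.star {e a : A} (he : IsSelfAdjoint e) (ha : Her e a) : Her e (star a) :=
  ⟨by simpa [he.star_eq] using congrArg Star.star ha.2,
   by simpa [he.star_eq] using congrArg Star.star ha.1⟩
lemma Her.zero (e : A) : Her e 0 := ⟨by simp, by simp⟩
lemma Her.mul_sub_one {e a b : A} (ha : Her e (a - 1)) (hb : Her e (b - 1)) :
    Her e (a * b - 1) := by
  have : a * b - 1 = (a - 1) + (b - 1) + (a - 1) * (b - 1) := by noncomm_ring
  rw [this]; exact (ha.add hb).add (ha.mul hb)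
lemma Her.pow_sub_one {e a : A} (ha : Her e (a - 1)) : ∀ n : ℕ, Her e (a ^ n - 1)
  | 0 => by simpa using Her.zero e
  | n + 1 => by rw [pow_succ]; exact (Her.pow_sub_one ha n).mul_sub_one ha

lemma star_pow_mul_pow {u : A} (hu : u ∈ unitary A) (j : ℕ) : star u ^ j * u ^ j = 1 := by
  rw [← star_pow]; exact Unitary.star_mul_self_of_mem (pow_mem hu j)
lemma pow_mul_star_pow {u : A} (hu : u ∈ unitary A) (j : ℕ) : u ^ j * star u ^ j = 1 := by
  rw [← star_pow]; exact Unitary.mul_star_self_of_mem (pow_mem hu j)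

lemma cj_mul {u : A} (hu : u ∈ unitary A) (j : ℕ) (a b : A) :
    cj u j a * cj u j b = cj u j (a * b) := by
  simp only [cj, mul_assoc]
  rw [← mul_assoc (star u ^ j), star_pow_mul_pow hu, one_mul]

lemma cj_star (u : A) (j : ℕ) (a : A) : star (cj u j a) = cj u j (star a) := by
  simp [cj, mul_assoc]
lemma cj_add (u : A) (j : ℕ) (a b : A) : cj u j (a + b) = cj u j a + cj u j b := by
  simp [cj, mul_add, add_mul]
lemma cj_sub (u : A) (j : ℕ) (a b : A) : cj u j (a - b) = cj u j a - cj u j b := by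
  simp [cj, mul_sub, sub_mul]
@[simp] lemma cj_zero (u : A) (j : ℕ) : cj u j 0 = 0 := by simp [cj]
lemma cj_succ (u : A) (j : ℕ) (a : A) : u * cj u j a * star u = cj u (j + 1) a := by
  simp only [cj]
  rw [pow_succ' u, pow_succ (star u)]
  simp only [mul_assoc]
lemma norm_cj {u : A} (hu : u ∈ unitary A) (j : ℕ) (a : A) : ‖cj u j a‖ = ‖a‖ := by
  rw [cj, ← star_pow, CStarRing.norm_mul_mem_unitary _ (Unitary.star_mem (pow_mem hu j)),
    CStarRing.norm_mem_unitary_mul _ (pow_mem hu j)]

lemma cj_orth {u e : A} (hu : u ∈ unitary A) (he : IsSelfAdjoint e) {N : ℕ}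
    (ho : ∀ j, 1 ≤ j → j ≤ N → e * u ^ j * e = 0) {a b : A} (ha : Her e a) (hb : Her e b)
    {i j : ℕ} (hij : i ≠ j) (h1 : i ≤ j + N) (h2 : j ≤ i + N) : cj u i a * cj u j b = 0 := by
  have key : e * (star u ^ i * u ^ j) * e = 0 := by
    rcases lt_or_gt_of_ne hij with h | h
    · obtain ⟨k, rfl⟩ : ∃ k, j = i + k := ⟨j - i, by omega⟩
      rw [pow_add, ← mul_assoc (star u ^ i), star_pow_mul_pow hu, one_mul]
      exact ho k (by omega) (by omega)
    · obtain ⟨k, rfl⟩ : ∃ k, i = k + j := ⟨i - j, by omega⟩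
      rw [pow_add, mul_assoc (star u ^ k), star_pow_mul_pow hu, mul_one]
      have := congrArg star (ho k (by omega) (by omega))
      simpa [he.star_eq, mul_assoc] using this
  calc cj u i a * cj u j b = u ^ i * (a * e) * star u ^ i * (u ^ j * (e * b) * star u ^ j) := by
        rw [ha.2, hb.1]; rfl
    _ = u ^ i * a * (e * (star u ^ i * u ^ j) * e) * b * star u ^ j := by simp only [mul_assoc]
    _ = 0 := by rw [key]; simp

lemma cj_sum_mul {u e : A} (hu : u ∈ unitary A) (he : IsSelfAdjoint e) {N : ℕ}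
    (ho : ∀ j, 1 ≤ j → j ≤ N → e * u ^ j * e = 0) (c : ℕ) (a b : ℕ → A) (ha : ∀ j, Her e (a j))
    (hb : ∀ j, Her e (b j)) :
    (∑ j ∈ Finset.range (N + 1), cj u (j + c) (a j)) *
      (∑ j ∈ Finset.range (N + 1), cj u (j + c) (b j)) =
      ∑ j ∈ Finset.range (N + 1), cj u (j + c) (a j * b j) := by
  rw [Finset.sum_mul]
  refine Finset.sum_congr rfl fun i hi => ?_
  rw [Finset.mul_sum, Finset.sum_eq_single i, cj_mul hu]
  · intro j hj hji
    simp only [Finset.mem_range] at hi hj
    exact cj_orth hu he ho (ha i) (hb j) (by omega) (by omega) (by omega)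
  · intro h; exact absurd hi h

lemma one_add_cj_sum_mul {u e : A} (hu : u ∈ unitary A) (he : IsSelfAdjoint e) {N : ℕ}
    (ho : ∀ j, 1 ≤ j → j ≤ N → e * u ^ j * e = 0) (c : ℕ) (a b : ℕ → A)
    (ha : ∀ j, Her e (a j - 1)) (hb : ∀ j, Her e (b j - 1)) :
    (1 + ∑ j ∈ Finset.range (N + 1), cj u (j + c) (a j - 1)) *
      (1 + ∑ j ∈ Finset.range (N + 1), cj u (j + c) (b j - 1)) =
      1 + ∑ j ∈ Finset.range (N + 1), cj u (j + c) (a j * b j - 1) := by
  rw [add_mul, mul_add, mul_add, cj_sum_mul hu he ho c _ _ ha hb]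
  simp only [one_mul, mul_one, add_assoc, ← Finset.sum_add_distrib, ← cj_add]
  congr 1
  refine Finset.sum_congr rfl fun j _ => ?_
  congr 1
  noncomm_ring

lemma one_add_cj_sum_mem {u e : A} (hu : u ∈ unitary A) (he : IsSelfAdjoint e) {N : ℕ}
    (ho : ∀ j, 1 ≤ j → j ≤ N → e * u ^ j * e = 0) (c : ℕ) (a : ℕ → A)
    (ha : ∀ j, Her e (a j - 1)) (hau : ∀ j, a j ∈ unitary A) :
    (1 + ∑ j ∈ Finset.range (N + 1), cj u (j + c) (a j - 1)) ∈ unitary A := by
  have hs : ∀ j, Her e (star (a j) - 1) := fun j => by simpa using (ha j).star he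
  have e1 : star (1 + ∑ j ∈ Finset.range (N + 1), cj u (j + c) (a j - 1)) =
      1 + ∑ j ∈ Finset.range (N + 1), cj u (j + c) (star (a j) - 1) := by
    simp [star_sum, cj_star]
  rw [Unitary.mem_iff, e1, one_add_cj_sum_mul hu he ho c _ _ hs ha,
    one_add_cj_sum_mul hu he ho c _ _ ha hs]
  simp [Unitary.star_mul_self_of_mem (hau _), Unitary.mul_star_self_of_mem (hau _)]

/-- Berg's technique. -/
lemma berg {u e w : A} (hu : u ∈ unitary A) (he : IsSelfAdjoint e) {N : ℕ} (hN : 0 < N)
    (ho : ∀ j, 1 ≤ j → j ≤ N → e * u ^ j * e = 0) (hw : w ∈ unitary A) (h1 : IsUnit (1 + w))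
    (hew : Her e (w - 1)) :
    ∃ W ∈ unitary A, ‖W * (u * w) * star W - u‖ ≤ π / N ∧
      ∀ g : A, (∀ j, 1 ≤ j → j ≤ N + 1 → ∃ c : ℂ, g * u ^ j * e = c • (u ^ j * e) ∧
        e * star u ^ j * g = c • (e * star u ^ j)) → Commute W g := by
  obtain ⟨r, m, hr, hrN, hrn, hm1, hm2⟩ := exists_root w hw h1 N hN
  have her : Her e (r - 1) := ⟨by rw [hm1, ← mul_assoc, hew.1], by rw [hm2, mul_assoc, hew.2]⟩
  have hers : Her e (star r - 1) := by simpa using her.star he
  set a : ℕ → A := fun j => star r ^ (N - j) with ha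
  have hah : ∀ j, Her e (a j - 1) := fun j => hers.pow_sub_one _
  have hau : ∀ j, a j ∈ unitary A := fun j => pow_mem (Unitary.star_mem hr) _
  set W := 1 + ∑ j ∈ Finset.range (N + 1), cj u (j + 1) (a j - 1) with hW
  have hWu : W ∈ unitary A := one_add_cj_sum_mem hu he ho 1 a hah hau
  refine ⟨W, hWu, ?_, ?_⟩
  · set b : ℕ → A := fun j => if j = 0 then w else 1 with hb
    have hbh : ∀ j, Her e (b j - 1) := fun j => by
      simp only [hb]; split_ifs
      · exact hew
      · simpa using Her.zero e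
    have e1 : u * w * star u = 1 + ∑ j ∈ Finset.range (N + 1), cj u (j + 1) (b j - 1) := by
      rw [Finset.sum_range_succ']
      simp [hb, cj, mul_sub, sub_mul, Unitary.mul_star_self_of_mem hu]
    have e2 : W * (u * w * star u) =
        1 + ∑ j ∈ Finset.range N, cj u (j + 2) (a (j + 1) - 1) := by
      rw [e1, hW, one_add_cj_sum_mul hu he ho 1 a b hah hbh, Finset.sum_range_succ']
      have : a 0 * b 0 = 1 := by
        simp only [ha, hb, if_true, Nat.sub_zero]
        rw [← hrN]; exact star_pow_mul_pow hr N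
      rw [this]
      simp [hb]
    have e3 : u * W * star u = 1 + ∑ j ∈ Finset.range N, cj u (j + 2) (a j - 1) := by
      rw [hW, Finset.sum_range_succ, mul_add, add_mul, mul_one, Unitary.mul_star_self_of_mem hu]
      simp only [ha, Nat.sub_self, pow_zero, sub_self, cj_zero, add_zero]
      rw [Finset.mul_sum, Finset.sum_mul]
      simp only [cj_succ]
    have e4 : (W * (u * w) * star W - u) * (W * star u) =
        ∑ j ∈ Finset.range N, cj u (j + 2) (a (j + 1) - a j) := by
      have : (W * (u * w) * star W - u) * (W * star u) = W * (u * w * star u) - u * W * star u := by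
        rw [sub_mul]
        simp only [mul_assoc]
        rw [← mul_assoc (star W), Unitary.star_mul_self_of_mem hWu, one_mul]
      rw [this, e2, e3, add_sub_add_left_eq_sub, ← Finset.sum_sub_distrib]
      refine Finset.sum_congr rfl fun j _ => ?_
      rw [← cj_sub]; congr 1; abel
    rw [← CStarRing.norm_mul_mem_unitary _ (mul_mem hWu (Unitary.star_mem hu)), e4]
    set d : ℕ → A := fun j => a (j + 1) - a j with hd
    have hdh : ∀ j, Her e (d j) := fun j => by
      have : d j = (a (j + 1) - 1) - (a j - 1) := by simp [hd]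
      rw [this]; exact (hah _).sub (hah _)
    have hdn : ∀ j < N, ‖d j‖ ≤ π / N := fun j hj => by
      have : d j = a (j + 1) * star (1 - r) := by
        simp only [hd, ha]
        rw [show N - j = N - (j + 1) + 1 by omega, pow_succ, star_sub, star_one, mul_sub, mul_one]
      rw [this, CStarRing.norm_mem_unitary_mul _ (hau _), norm_star, norm_sub_rev]
      exact hrn
    obtain ⟨N', rfl⟩ : ∃ N', N = N' + 1 := ⟨N - 1, by omega⟩
    have ho' : ∀ j, 1 ≤ j → j ≤ N' → e * u ^ j * e = 0 := fun j h1 h2 => ho j h1 (by omega)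
    have hp : (0 : ℝ) ≤ π / ((N' + 1 : ℕ) : ℝ) := by positivity
    refine (mul_self_le_mul_self_iff (norm_nonneg _) hp).mpr ?_
    rw [← CStarRing.norm_star_mul_self, star_sum]
    simp only [cj_star]
    rw [cj_sum_mul hu he ho' 2 _ _ (fun j => (hdh j).star he) hdh]
    refine norm_sum_le_of_orth _ _ (by positivity) (fun i _ => ?_) (fun i hi j hj hij => ?_)
      (fun i hi => ?_)
    · rw [IsSelfAdjoint, cj_star]; simp
    · simp only [Finset.mem_range] at hi hj
      exact cj_orth hu he ho' (((hdh i).star he).mul (hdh i)) (((hdh j).star he).mul (hdh j))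
        (by omega) (by omega) (by omega)
    · rw [norm_cj hu, CStarRing.norm_star_mul_self]
      have := hdn i (Finset.mem_range.mp hi)
      exact mul_self_le_mul_self (norm_nonneg _) this
  · intro g hg
    refine (Commute.one_left g).add_left (Commute.sum_left _ _ _ fun j hj => ?_)
    obtain ⟨c, h2, h3⟩ := hg (j + 1) (by omega) (by simp only [Finset.mem_range] at hj; omega)
    have h4 := hah j
    calc cj u (j + 1) (a j - 1) * g = u ^ (j + 1) * (a j - 1) * (e * star u ^ (j + 1) * g) := by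
          nth_rewrite 1 [← h4.2]
          simp only [cj, mul_assoc]
      _ = c • (u ^ (j + 1) * ((a j - 1) * e) * star u ^ (j + 1)) := by
          rw [h3]; simp only [mul_smul_comm, mul_assoc]
      _ = c • (u ^ (j + 1) * (e * (a j - 1)) * star u ^ (j + 1)) := by rw [h4.1, h4.2]
      _ = (g * u ^ (j + 1) * e) * (a j - 1) * star u ^ (j + 1) := by
          rw [h2]; simp only [smul_mul_assoc, mul_assoc]
      _ = g * cj u (j + 1) (a j - 1) := by
          nth_rewrite 2 [← h4.1]
          simp only [cj, mul_assoc]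

end Pool.Agent.Lib.MP_f09365_an
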