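import Mathlib

namespace Pool.Agent.Lib.MP_f09365_an

open Filter Topology MeasureTheory Set

lemma exists_stair {a b : ℝ} (hab : a < b) {D : Set ℝ} (hD : D.Countable) :
    ∃ κ : ℝ → ℝ, Continuous κ ∧ (∀ t, 0 ≤ κ t ∧ κ t ≤ 1) ∧ (∀ t ≤ a, κ t = 0) ∧
      (∀ t, b ≤ t → κ t = 1) ∧ ∀ d ∈ D, ∀ᶠ t in 𝓝 d, κ t = κ d := by
  obtain ⟨O, hDO, hO, hvol⟩ := D.exists_isOpen_lt_of_lt (μ := volume) (ENNReal.ofReal (b - a))
    (by rw [hD.measure_zero]; simpa using hab)
  set E : Set ℝ := Ioo a b \ O with hE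
  have hEm : MeasurableSet E := measurableSet_Ioo.diff hO.measurableSet
  set f : ℝ → ℝ := E.indicator fun _ => 1 with hf
  have hfi : ∀ s t, IntervalIntegrable f volume s t := fun s t =>
    ⟨(integrableOn_const (by simp)).indicator hEm, (integrableOn_const (by simp)).indicator hEm⟩
  set k0 : ℝ → ℝ := fun t => ∫ x in a..t, f x with hk0
  have hk0c : Continuous k0 := intervalIntegral.continuous_primitive hfi a
  have hconst : ∀ s t, (∀ x ∈ uIcc s t, x ∉ E) → k0 t = k0 s := by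
    intro s t hst
    have h1 : k0 t - k0 s = ∫ x in s..t, f x :=
      intervalIntegral.integral_interval_sub_left (hfi _ _) (hfi _ _)
    have h2 : ∫ x in s..t, f x = ∫ _ in s..t, (0 : ℝ) :=
      intervalIntegral.integral_congr fun x hx => by simp [hf, hst x hx]
    rw [h2] at h1
    simp at h1
    linarith
  have hpos : 0 < k0 b := by
    refine (intervalIntegral.integral_pos_iff_support_of_nonneg_ae
      (Eventually.of_forall fun x => indicator_nonneg (fun _ _ => zero_le_one) x) (hfi a b)).mpr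
      ⟨hab, ?_⟩
    have h1 : Function.support f ∩ Ioc a b = E := by
      rw [hf, support_indicator]
      ext x
      simp only [hE, mem_inter_iff, mem_diff, mem_Ioo, Function.mem_support, mem_Ioc]
      constructor
      · rintro ⟨⟨h, _⟩, _⟩; exact h
      · rintro ⟨⟨h1, h2⟩, h3⟩; exact ⟨⟨⟨⟨h1, h2⟩, h3⟩, one_ne_zero⟩, h1, h2.le⟩
    rw [h1, pos_iff_ne_zero]
    intro h0
    have h2 : volume (Ioo a b) ≤ volume E + volume O := by
      refine (measure_mono ?_).trans (measure_union_le _ _)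
      intro x hx
      by_cases hxO : x ∈ O
      · exact Or.inr hxO
      · exact Or.inl ⟨hx, hxO⟩
    rw [h0, zero_add, Real.volume_Ioo] at h2
    exact absurd hvol (not_lt.mpr h2)
  refine ⟨fun t => max 0 (min 1 (k0 t / k0 b)), by fun_prop, fun t => ⟨le_max_left _ _,
    max_le zero_le_one (min_le_left _ _)⟩, fun t ht => ?_, fun t ht => ?_, fun d hd => ?_⟩
  · have : k0 t = k0 a := hconst a t fun x hx hxE => by
      rw [uIcc_of_ge ht] at hx
      exact absurd hxE.1.1 (not_lt.mpr hx.2)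
    have h0 : k0 a = 0 := by simp [hk0]
    simp [this, h0]
  · have : k0 t = k0 b := hconst b t fun x hx hxE => by
      rw [uIcc_of_le ht] at hx
      exact absurd hxE.1.2 (not_lt.mpr hx.1)
    simp [this, div_self hpos.ne']
  · obtain ⟨ε, hε, hball⟩ := Metric.isOpen_iff.mp hO d (hDO hd)
    filter_upwards [Metric.ball_mem_nhds d hε] with t ht
    rw [hconst d t fun x hx hxE => hxE.2 (hball ?_)]
    exact (convex_ball d ε).ordConnected.uIcc_subset (Metric.mem_ball_self hε) ht hx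

variable {X : Type*} [MetricSpace X]

/-- locally constant at every point of the orbit -/
def LC {Y : Type*} (h : X ≃ₜ X) (y : X) (f : X → Y) : Prop :=
  ∀ n : ℤ, ∀ᶠ x in 𝓝 ((h ^ n) y), f x = f ((h ^ n) y)

lemma LC.comp {Y Z : Type*} {h : X ≃ₜ X} {y : X} {f : X → Y} (hf : LC h y f) (g : Y → Z) :
    LC h y (fun x => g (f x)) := fun n => (hf n).mono fun _ hx => congrArg g hx

lemma LC.comp₂ {Y Y' Z : Type*} {h : X ≃ₜ X} {y : X} {f : X → Y} {f' : X → Y'} (hf : LC h y f)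
    (hf' : LC h y f') (g : Y → Y' → Z) : LC h y (fun x => g (f x) (f' x)) :=
  fun n => ((hf n).and (hf' n)).mono fun _ hx => congrArg₂ g hx.1 hx.2

lemma zpow_apply_add (h : X ≃ₜ X) (m n : ℤ) (x : X) : (h ^ m) ((h ^ n) x) = (h ^ (m + n)) x := by
  rw [zpow_add]; rfl

lemma LC.shift {Y : Type*} {h : X ≃ₜ X} {y : X} {f : X → Y} (hf : LC h y f) (m : ℤ) :
    LC h y (fun x => f ((h ^ m) x)) := by
  intro n
  have := hf (m + n)
  rw [← zpow_apply_add] at this
  exact (h ^ m).continuous.continuousAt.tendsto.eventually this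

lemma LC.at {Y : Type*} {h : X ≃ₜ X} {y : X} {f : X → Y} (hf : LC h y f) (m : ℤ) :
    ∀ᶠ x in 𝓝 y, f ((h ^ m) x) = f ((h ^ m) y) := by
  simpa using hf.shift m 0

lemma exists_bump (h : X ≃ₜ X) (y x0 : X) {a b : ℝ} (hab : a < b) :
    ∃ β : C(X, ℝ), (∀ x, 0 ≤ β x ∧ β x ≤ 1) ∧ (∀ x, dist x x0 ≤ a → β x = 1) ∧
      (∀ x, b ≤ dist x x0 → β x = 0) ∧ LC h y β := by
  obtain ⟨κ, hc, h01, h0, h1, hl⟩ := exists_stair hab
    (countable_range fun n : ℤ => dist ((h ^ n) y) x0)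
  refine ⟨⟨fun x => 1 - κ (dist x x0), by fun_prop⟩, fun x => ?_, fun x hx => ?_, fun x hx => ?_,
    fun n => ?_⟩
  · have := h01 (dist x x0)
    simp only [ContinuousMap.coe_mk]
    constructor <;> linarith
  · simp [h0 _ hx]
  · simp [h1 _ hx]
  · have h2 := hl _ ⟨n, rfl⟩
    have h3 : Continuous fun x => dist x x0 := by fun_prop
    exact (h3.continuousAt.tendsto.eventually h2).mono fun x hx => by
      simp only [ContinuousMap.coe_mk]; rw [hx]

/-- complex function built from a real one -/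
noncomputable def cf (g : ℝ → ℝ) (hg : Continuous g) (β : C(X, ℝ)) : C(X, ℂ) :=
  ⟨fun x => (g (β x) : ℂ), by fun_prop⟩

@[simp] lemma cf_apply (g : ℝ → ℝ) (hg : Continuous g) (β : C(X, ℝ)) (x : X) :
    cf g hg β x = (g (β x) : ℂ) := rfl

lemma cf_star (g : ℝ → ℝ) (hg : Continuous g) (β : C(X, ℝ)) : star (cf g hg β) = cf g hg β := by
  ext x; simp

lemma cf_LC {h : X ≃ₜ X} {y : X} (g : ℝ → ℝ) (hg : Continuous g) {β : C(X, ℝ)} (hβ : LC h y β) :
    LC h y (cf g hg β) := hβ.comp fun t => (g t : ℂ)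

/-- the algebra of functions that are locally constant along the orbit -/
def LCalg (h : X ≃ₜ X) (y : X) : StarSubalgebra ℂ C(X, ℂ) where
  carrier := {f | LC h y f}
  mul_mem' := fun hf hg => LC.comp₂ hf hg (· * ·)
  add_mem' := fun hf hg => LC.comp₂ hf hg (· + ·)
  algebraMap_mem' := fun _ _ => Eventually.of_forall fun _ => rfl
  star_mem' := fun hf => LC.comp hf star

lemma LCalg_dense [CompactSpace X] (h : X ≃ₜ X) (y : X) :
    (LCalg h y).topologicalClosure = ⊤ := by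
  refine ContinuousMap.starSubalgebra_topologicalClosure_eq_top_of_separatesPoints _ ?_
  intro x x' hne
  obtain ⟨β, -, h1, h0, hl⟩ := exists_bump h y x (dist_pos.mpr hne.symm)
  refine ⟨_, ⟨cf id continuous_id β, cf_LC _ _ hl, rfl⟩, ?_⟩
  simp [h1 x (by simp), h0 x' le_rfl]

/-- a pair of functions on the quarter circle -/
lemma exists_pair (h : X ≃ₜ X) (y : X) {a b : ℝ} (hab : a < b) :
    ∃ c s : C(X, ℂ), star c = c ∧ star s = s ∧ c * c + s * s = 1 ∧ LC h y c ∧ LC h y s ∧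
      (∀ x, ∃ p q : ℝ, 0 ≤ p ∧ 0 ≤ q ∧ c x = p ∧ s x = q) ∧
      (∀ x, dist x y ≤ a → c x = 0 ∧ s x = 1) ∧ (∀ x, b ≤ dist x y → c x = 1 ∧ s x = 0) := by
  obtain ⟨β, h01, h1, h0, hl⟩ := exists_bump h y y hab
  refine ⟨cf (fun t => Real.cos (Real.pi / 2 * t)) (by fun_prop) β,
    cf (fun t => Real.sin (Real.pi / 2 * t)) (by fun_prop) β, cf_star _ _ _, cf_star _ _ _, ?_,
    cf_LC _ _ hl, cf_LC _ _ hl, fun x => ⟨_, _, ?_, ?_, rfl, rfl⟩, fun x hx => ?_, fun x hx => ?_⟩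
  · ext x
    simp only [ContinuousMap.add_apply, ContinuousMap.mul_apply, cf_apply, ContinuousMap.one_apply]
    have := Real.cos_sq_add_sin_sq (Real.pi / 2 * β x)
    rw [← Complex.ofReal_mul, ← Complex.ofReal_mul, ← Complex.ofReal_add, ← sq, ← sq, this]
    simp
  · have := h01 x
    have := Real.pi_pos
    apply Real.cos_nonneg_of_mem_Icc
    constructor <;> nlinarith
  · have := h01 x
    have := Real.pi_pos
    apply Real.sin_nonneg_of_nonneg_of_le_pi <;> nlinarith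
  · simp only [cf_apply, h1 x hx, mul_one, Real.cos_pi_div_two, Real.sin_pi_div_two]; simp
  · simp only [cf_apply, h0 x hx, mul_zero, Real.cos_zero, Real.sin_zero]; simp

lemma exists_cbump (h : X ≃ₜ X) (y : X) {a b : ℝ} (hab : a < b) :
    ∃ e : C(X, ℂ), star e = e ∧ LC h y e ∧ (∀ x, dist x y ≤ a → e x = 1) ∧
      (∀ x, b ≤ dist x y → e x = 0) := by
  obtain ⟨c, s, -, h1, -, -, h2, -, h3, h4⟩ := exists_pair h y hab
  exact ⟨s, h1, h2, fun x hx => (h3 x hx).2, fun x hx => (h4 x hx).2⟩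

/-- every orbit visits `K` with gaps at most `M` -/
def Syn (h : X ≃ₜ X) (K : Set X) (M : ℕ) : Prop := ∀ x, ∃ r : ℤ, 0 ≤ r ∧ r < M ∧ (h ^ r) x ∈ K

lemma exists_syn [CompactSpace X] (h : X ≃ₜ X)
    (hmin : ∀ x, Dense (range fun n : ℤ => (h ^ n) x)) (y : X) {r : ℝ} (hr : 0 < r) :
    ∃ M, Syn h (Metric.ball y r) M := by
  obtain ⟨t, ht⟩ := isCompact_univ.elim_finite_subcover
    (fun n : ℤ => (h ^ n) ⁻¹' Metric.ball y r)
    (fun n => Metric.isOpen_ball.preimage (h ^ n).continuous) (fun x _ => by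
      obtain ⟨_, hz, ⟨n, rfl⟩⟩ := (hmin x).inter_open_nonempty _ Metric.isOpen_ball
        ⟨y, Metric.mem_ball_self hr⟩
      exact mem_iUnion.mpr ⟨n, hz⟩)
  obtain ⟨B, hB⟩ : ∃ B : ℕ, ∀ n ∈ t, |n| ≤ B := by
    refine ⟨t.sup Int.natAbs, fun n hn => ?_⟩
    rw [← Int.natCast_natAbs]
    exact_mod_cast Finset.le_sup (f := Int.natAbs) hn
  refine ⟨2 * B + 1, fun x => ?_⟩
  obtain ⟨n, hn, hx⟩ : ∃ n ∈ t, (h ^ n) ((h ^ (B : ℤ)) x) ∈ Metric.ball y r := by
    simpa using ht (mem_univ ((h ^ (B : ℤ)) x))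
  have := abs_le.mp (hB n hn)
  refine ⟨n + B, by omega, by push_cast; omega, by rwa [← zpow_apply_add]⟩

lemma not_periodic [Infinite X] (h : X ≃ₜ X)
    (hmin : ∀ x, Dense (range fun n : ℤ => (h ^ n) x)) (y : X) {j : ℤ} (hj : j ≠ 0) :
    (h ^ j) y ≠ y := by
  intro e
  have hper : ∀ m : ℤ, (h ^ (j * m)) y = y := by
    intro m
    rw [zpow_mul]
    induction m using Int.induction_on with
    | zero => simp
    | succ m ih => rw [zpow_add_one, Homeomorph.mul_apply, e, ih]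
    | pred m ih =>
      rw [zpow_sub_one, Homeomorph.mul_apply]
      have : (h ^ j)⁻¹ y = y := by
        rw [Homeomorph.inv_apply, Homeomorph.symm_apply_eq, e]
      rw [this, ih]
  have hfin : (range fun n : ℤ => (h ^ n) y).Finite := by
    refine ((Set.finite_Ico (0 : ℤ) |j|).image fun n : ℤ => (h ^ n) y).subset ?_
    rintro _ ⟨n, rfl⟩
    refine ⟨n % j, ⟨Int.emod_nonneg _ hj, Int.emod_lt_abs _ hj⟩, ?_⟩
    simp only
    conv_rhs => rw [← Int.emod_add_mul_ediv n j, ← zpow_apply_add, hper]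
  have := (hmin y).closure_eq
  rw [hfin.isClosed.closure_eq] at this
  rw [this] at hfin
  exact Set.infinite_univ hfin

end Pool.Agent.Lib.MP_f09365_an
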