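import Mathlib

namespace Pool.Agent.Lib.MP_f09365_an

universe v

/-- A star-representation on a Hilbert space is irreducible when the only closed invariant
subspaces are the trivial ones. -/
def IsIrreducibleRep {B H : Type*} [Ring B] [StarRing B] [Algebra ℂ B]
    [NormedAddCommGroup H] [InnerProductSpace ℂ H] [CompleteSpace H]
    (π : B →⋆ₙₐ[ℂ] (H →L[ℂ] H)) : Prop :=
  ∀ K : Submodule ℂ H, IsClosed (K : Set H) → (∀ b : B, ∀ x ∈ K, π b x ∈ K) → K = ⊥ ∨ K = ⊤

/-- Subhomogeneous: the dimensions of the irreducible representations are bounded. -/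
def Subhomogeneous (B : Type*) [Ring B] [StarRing B] [Algebra ℂ B] : Prop :=
  ∃ N : ℕ, ∀ (H : Type v) [NormedAddCommGroup H] [InnerProductSpace ℂ H] [CompleteSpace H]
    (π : B →⋆ₙₐ[ℂ] (H →L[ℂ] H)), IsIrreducibleRep π → Module.rank ℂ H ≤ N

end Pool.Agent.Lib.MP_f09365_an
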