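import Mathlib

namespace Pool.Agent.Lib.MP_f09365_an

variable {A : Type*} [Ring A] [StarRing A]

/-- finite geometric series -/
def geo (x : A) (M : ℕ) : A := ∑ j ∈ Finset.range M, x ^ j

omit [StarRing A] in
lemma geo_mul {x : A} {M : ℕ} (h : x ^ M = 0) : geo x M * (1 - x) = 1 := by
  have := geom_sum_mul_neg x M
  rw [h, sub_zero] at this
  exact this

omit [StarRing A] in
lemma mul_geo {x : A} {M : ℕ} (h : x ^ M = 0) : (1 - x) * geo x M = 1 := by
  have := mul_neg_geom_sum x M
  rw [h, sub_zero] at this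
  exact this

/-- the travelling channel -/
def chan (u C S : A) (M : ℕ) : A := -(geo (u * C) M * u * S)

/-- the generalised first-return unitary -/
def zz (u C S : A) (M : ℕ) : A := C + S * chan u C S M

omit [StarRing A] in
lemma chan_eq {u C S : A} {M : ℕ} (h : (u * C) ^ M = 0) :
    chan u C S M = u * (-S + C * chan u C S M) := by
  have h1 := mul_geo h
  have : (1 - u * C) * chan u C S M = -(u * S) := by
    rw [chan, mul_neg, ← mul_assoc, ← mul_assoc, h1, one_mul]
  rw [sub_mul, one_mul, sub_eq_iff_eq_add] at this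
  rw [mul_add, mul_neg, ← mul_assoc]
  exact this

omit [StarRing A] in
lemma mul_pow_swap (a b : A) : ∀ j : ℕ, a * (b * a) ^ j = (a * b) ^ j * a
  | 0 => by simp
  | j + 1 => by
    rw [pow_succ, pow_succ, ← mul_assoc, mul_pow_swap a b j]
    simp only [mul_assoc]

lemma star_zz (u : A) {C S : A} (hC : IsSelfAdjoint C) (hS : IsSelfAdjoint S) (M : ℕ) :
    star (zz u C S M) = zz (star u) C S M := by
  simp only [zz, chan, geo, star_add, star_mul, star_neg, star_sum, star_pow, hC.star_eq,
    hS.star_eq]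
  congr 1
  simp only [Finset.mul_sum, Finset.sum_mul, mul_neg, neg_mul, neg_inj]
  refine Finset.sum_congr rfl fun j _ => ?_
  rw [mul_pow_swap]
  simp only [mul_assoc]

lemma zz_star_mul {u C S : A} (hu : star u * u = 1) (hC : IsSelfAdjoint C) (hS : IsSelfAdjoint S)
    (hCS : C * S = S * C) (h1 : C * C + S * S = 1) {M : ℕ} (h : (u * C) ^ M = 0) :
    star (zz u C S M) * zz u C S M = 1 := by
  have e := chan_eq (S := S) h
  set X := chan u C S M
  have e2 : star X * X = star (-S + C * X) * (-S + C * X) := by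
    conv_lhs => rw [e]
    rw [star_mul, mul_assoc, ← mul_assoc (star u), hu, one_mul]
  simp only [zz, star_add, star_mul, star_neg, hC.star_eq, hS.star_eq] at e2 ⊢
  have e3 : (C + star X * S) * (C + S * X) + (-S + star X * C) * (-S + C * X) =
      (C * C + S * S) + star X * (C * C + S * S) * X + (C * S - S * C) * X
        - star X * (C * S - S * C) := by noncomm_ring
  rw [h1, hCS, ← e2] at e3
  simpa using e3

lemma zz_mem_unitary {u C S : A} (hu : u ∈ unitary A) (hC : IsSelfAdjoint C)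
    (hS : IsSelfAdjoint S) (hCS : C * S = S * C) (h1 : C * C + S * S = 1) {M : ℕ}
    (h : (u * C) ^ M = 0) (h' : (star u * C) ^ M = 0) : zz u C S M ∈ unitary A := by
  refine ⟨zz_star_mul hu.1 hC hS hCS h1 h, ?_⟩
  have := zz_star_mul (u := star u) (by simpa using hu.2) hC hS hCS h1 h'
  rw [← star_zz u hC hS, star_star] at this
  exact this

lemma zz_add_left_inv {K : Type*} [CommRing K] (φ : K →+* A) {u : A} (hu : star u * u = 1)
    (c s c' s' gi : K) (h1 : c * c + s * s = 1) (h1' : c' * c' + s' * s' = 1)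
    (hg : gi * (2 * (1 + c * c' + s * s')) = 1) {M M' N : ℕ}
    (hM : (u * φ c) ^ M = 0) (hM' : (u * φ c') ^ M' = 0)
    (hN : (u * φ (2 * gi * (c + c'))) ^ N = 0) (hN' : (star u * φ (2 * gi * (c + c'))) ^ N = 0) :
    ∃ L, L * (zz u (φ c) (φ s) M + zz u (φ c') (φ s') M') = 1 := by
  have eX := chan_eq (S := φ s) hM
  have eY := chan_eq (S := φ s') hM'
  simp only [zz]
  set X := chan u (φ c) (φ s) M
  set Y := chan u (φ c') (φ s') M'
  set y := φ c + φ s * X + (φ c' + φ s' * Y) with hy
  set Xo := -φ s + φ c * X with hXo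
  set Yo := -φ s' + φ c' * Y with hYo
  obtain ⟨g, hgd⟩ : ∃ g, g = 1 + c * c' + s * s' := ⟨_, rfl⟩
  obtain ⟨t, htd⟩ : ∃ t, t = s * c' - c * s' := ⟨_, rfl⟩
  obtain ⟨a, had⟩ : ∃ a, a = c + c' := ⟨_, rfl⟩
  obtain ⟨b, hbd⟩ : ∃ b, b = s + s' := ⟨_, rfl⟩
  obtain ⟨h, hhd⟩ : ∃ h, h = 2 * gi := ⟨_, rfl⟩
  rw [← hhd, ← had] at hN hN'
  have hhg : φ h * φ g = 1 := by
    rw [← map_mul, ← map_one φ]; congr 1; rw [hhd, hgd]; linear_combination hg
  have r1 : φ g * (Xo - Yo) = φ a * (X - Y) - φ t * y := by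
    have : φ g * (Xo - Yo) - (φ a * (X - Y) - φ t * y) = φ (t * c + t * c' - g * s + g * s') +
        φ (t * s + g * c - a) * X + φ (t * s' - g * c' + a) * Y := by
      simp only [map_add, map_sub, map_mul, hy, hXo, hYo]; noncomm_ring
    rw [show t * c + t * c' - g * s + g * s' = 0 by
        rw [htd, hgd]; linear_combination s * h1' - s' * h1,
      show t * s + g * c - a = 0 by rw [htd, hgd, had]; linear_combination c' * h1,
      show t * s' - g * c' + a = 0 by rw [htd, hgd, had]; linear_combination (-c) * h1'] at this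
    simpa [sub_eq_zero] using this
  have r2 : φ g * (X + Y) = φ b * y + φ a * (Xo + Yo) := by
    have : φ b * y + φ a * (Xo + Yo) - φ g * (X + Y) = φ (b * c + b * c' - a * s - a * s') +
        φ (b * s + a * c - g) * X + φ (b * s' + a * c' - g) * Y := by
      simp only [map_add, map_sub, map_mul, hy, hXo, hYo]; noncomm_ring
    rw [show b * c + b * c' - a * s - a * s' = 0 by rw [had, hbd]; ring,
      show b * s + a * c - g = 0 by rw [hbd, hgd, had]; linear_combination h1,
      show b * s' + a * c' - g = 0 by rw [hbd, hgd, had]; linear_combination h1'] at this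
    simp only [map_zero, zero_mul, add_zero, sub_eq_zero] at this
    exact this.symm
  have r3 : φ (2 * g) = φ a * y - φ b * (Xo + Yo) - φ t * (X - Y) := by
    have : φ a * y - φ b * (Xo + Yo) - φ t * (X - Y) = φ (a * c + a * c' + b * s + b * s') +
        φ (a * s - b * c - t) * X + φ (a * s' - b * c' + t) * Y := by
      simp only [map_add, map_sub, map_mul, hy, hXo, hYo]; noncomm_ring
    rw [show a * c + a * c' + b * s + b * s' = 2 * g by
        rw [had, hbd, hgd]; linear_combination h1 + h1',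
      show a * s - b * c - t = 0 by rw [hbd, htd, had]; ring,
      show a * s' - b * c' + t = 0 by rw [hbd, htd, had]; ring] at this
    simpa using this.symm
  have d1 : X - Y = (-(geo (u * φ (h * a)) N * u * φ h * φ t)) * y := by
    have e1 : X - Y = u * (Xo - Yo) := by rw [mul_sub, ← eX, ← eY]
    have e2 : Xo - Yo = φ h * (φ a * (X - Y) - φ t * y) := by
      rw [← r1, ← mul_assoc, hhg, one_mul]
    have e3 : (1 - u * φ (h * a)) * (X - Y) = -(u * φ h * φ t * y) := by
      rw [sub_mul, one_mul]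
      nth_rewrite 1 [e1, e2]
      rw [map_mul]; noncomm_ring
    calc X - Y = geo (u * φ (h * a)) N * ((1 - u * φ (h * a)) * (X - Y)) := by
          rw [← mul_assoc, geo_mul hN, one_mul]
      _ = _ := by rw [e3]; noncomm_ring
  have d2 : Xo + Yo = (geo (star u * φ (h * a)) N * star u * φ h * φ b) * y := by
    have e1 : Xo + Yo = star u * (X + Y) := by
      conv_rhs => rw [eX, eY]
      rw [← mul_add, ← mul_assoc, hu, one_mul]
    have e2 : X + Y = φ h * (φ b * y + φ a * (Xo + Yo)) := by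
      rw [← r2, ← mul_assoc, hhg, one_mul]
    have e3 : (1 - star u * φ (h * a)) * (Xo + Yo) = star u * φ h * φ b * y := by
      rw [sub_mul, one_mul]
      nth_rewrite 1 [e1, e2]
      rw [map_mul]; noncomm_ring
    calc Xo + Yo = geo (star u * φ (h * a)) N * ((1 - star u * φ (h * a)) * (Xo + Yo)) := by
          rw [← mul_assoc, geo_mul hN', one_mul]
      _ = _ := by rw [e3]; noncomm_ring
  refine ⟨φ gi * (φ a - φ b * (geo (star u * φ (h * a)) N * star u * φ h * φ b) -
    φ t * (-(geo (u * φ (h * a)) N * u * φ h * φ t))), ?_⟩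
  rw [mul_assoc, sub_mul, sub_mul, mul_assoc (φ b), mul_assoc (φ t), ← d1, ← d2, ← r3,
    ← map_mul, ← map_one φ]
  congr 1
  rw [hgd]; exact hg

lemma zz_add_isUnit {K : Type*} [CommRing K] (φ : K →+* A) {u : A} (hu : u ∈ unitary A)
    (c s c' s' gi : K) (hc : IsSelfAdjoint (φ c)) (hs : IsSelfAdjoint (φ s))
    (hc' : IsSelfAdjoint (φ c')) (hs' : IsSelfAdjoint (φ s'))
    (h1 : c * c + s * s = 1) (h1' : c' * c' + s' * s' = 1)
    (hg : gi * (2 * (1 + c * c' + s * s')) = 1) {M : ℕ}
    (hM : (u * φ c) ^ M = 0) (hM' : (u * φ c') ^ M = 0)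
    (hMs : (star u * φ c) ^ M = 0) (hMs' : (star u * φ c') ^ M = 0)
    (hN : (u * φ (2 * gi * (c + c'))) ^ M = 0) (hN' : (star u * φ (2 * gi * (c + c'))) ^ M = 0) :
    IsUnit (zz u (φ c) (φ s) M + zz u (φ c') (φ s') M) := by
  obtain ⟨L, hL⟩ := zz_add_left_inv φ hu.1 c s c' s' gi h1 h1' hg hM hM' hN hN'
  obtain ⟨L', hL'⟩ := zz_add_left_inv φ (u := star u) (by simpa using hu.2) c s c' s' gi h1 h1' hg
    hMs hMs' hN' (by simpa using hN)
  rw [← star_zz u hc hs, ← star_zz u hc' hs', ← star_add] at hL'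
  have h2 := congrArg star hL'
  rw [star_mul, star_star, star_one] at h2
  have h3 : L = star L' := by
    calc L = L * ((zz u (φ c) (φ s) M + zz u (φ c') (φ s') M) * star L') := by rw [h2, mul_one]
      _ = star L' := by rw [← mul_assoc, hL, one_mul]
  exact ⟨⟨_, L, by rw [h3]; exact h2, hL⟩, rfl⟩

omit [StarRing A] in
/-- localisation of `zz - 1` -/
lemma zz_sub_one_her {u C S e : A} (M : ℕ) (h1 : e * (C - 1) = C - 1) (h2 : (C - 1) * e = C - 1)
    (h3 : e * S = S) (h4 : S * e = S) :
    e * (zz u C S M - 1) = zz u C S M - 1 ∧ (zz u C S M - 1) * e = zz u C S M - 1 := by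
  have : zz u C S M - 1 = (C - 1) - S * (geo (u * C) M * u) * S := by
    simp only [zz, chan]; noncomm_ring
  rw [this]
  constructor
  · rw [mul_sub, h1, ← mul_assoc, ← mul_assoc, h3]
  · rw [sub_mul, h2, mul_assoc _ S e, h4]

end Pool.Agent.Lib.MP_f09365_an
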