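import Mathlib

namespace Pool.Agent.Lib.MP_f09365_an

open Function

/-- The standard polynomial in `k` variables, as an alternating map. -/
noncomputable def std (k : ℕ) (R : Type*) [Ring R] [Algebra ℂ R] : R [⋀^Fin k]→ₗ[ℂ] R :=
  MultilinearMap.alternatization (MultilinearMap.mkPiAlgebraFin ℂ k R)

variable {R : Type*} [Ring R] [Algebra ℂ R] {k : ℕ}

lemma std_apply (a : Fin k → R) :
    std k R a = ∑ σ : Equiv.Perm (Fin k),
      Equiv.Perm.sign σ • (List.ofFn fun i => a (σ i)).prod := by
  simp [std, MultilinearMap.alternatization_apply, MultilinearMap.mkPiAlgebraFin_apply]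

/-- The set `S` satisfies the standard identity of degree `k`. -/
def PI (k : ℕ) (S : Set R) : Prop := ∀ a : Fin k → R, (∀ i, a i ∈ S) → std k R a = 0

lemma PI.mono {S T : Set R} (h : PI k T) (hST : S ⊆ T) : PI k S :=
  fun a ha => h a fun i => hST (ha i)

lemma PI.extend {S T : Set R} (h : PI k S)
    (hST : ∀ (a : Fin k → R) (i : Fin k), (∀ x ∈ S, std k R (update a i x) = 0) →
      ∀ x ∈ T, std k R (update a i x) = 0) : PI k T := by
  classical
  have key : ∀ s : Finset (Fin k), ∀ a : Fin k → R, (∀ i ∈ s, a i ∈ T) → (∀ i ∉ s, a i ∈ S) →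
      std k R a = 0 := by
    intro s
    induction s using Finset.induction with
    | empty => intro a _ h2; exact h a fun i => h2 i (by simp)
    | insert j s hj ih =>
      intro a h1 h2
      have := hST a j (fun x hx => ih _ (fun i hi => by
        have : i ≠ j := fun e => hj (e ▸ hi)
        rw [update_of_ne this]; exact h1 i (by simp [hi])) (fun i hi => by
        by_cases e : i = j
        · subst e; simpa using hx
        · rw [update_of_ne e]; exact h2 i (by simp [e, hi]))) (a j) (h1 j (by simp))
      simpa using this
  intro a ha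
  exact key Finset.univ a (fun i _ => ha i) (by simp)

lemma PI.span {S : Set R} (h : PI k S) : PI k (Submodule.span ℂ S : Set R) := by
  classical
  refine h.extend fun a i hS x hx => ?_
  induction hx using Submodule.span_induction with
  | mem x hx => exact hS x hx
  | zero => exact (std k R).map_update_zero a i
  | add x y _ _ hx hy => rw [(std k R).map_update_add, hx, hy, add_zero]
  | smul c x _ hx => rw [(std k R).map_update_smul, hx, smul_zero]

lemma map_std {R' : Type*} [Ring R'] [Algebra ℂ R'] (f : R →+* R') (a : Fin k → R) :
    f (std k R a) = std k R' (fun i => f (a i)) := by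
  rw [std_apply, std_apply, map_sum]
  refine Finset.sum_congr rfl fun σ _ => ?_
  rw [Units.smul_def, Units.smul_def, map_zsmul, map_list_prod, List.map_ofFn]
  rfl

lemma continuous_std [TopologicalSpace R] [IsTopologicalRing R] :
    Continuous fun a : Fin k → R => std k R a := by
  simp only [std_apply, Units.smul_def]
  refine continuous_finset_sum _ fun σ _ => Continuous.zsmul ?_ _
  have : ∀ a : Fin k → R, (List.ofFn fun i => a (σ i)).prod =
      ((List.finRange k).map fun i => a (σ i)).prod := fun a => by
    rw [List.ofFn_eq_map]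
  simp only [this]
  exact continuous_list_prod _ fun i _ => continuous_apply _

lemma PI.closure [TopologicalSpace R] [IsTopologicalRing R] [T2Space R] {S : Set R}
    (h : PI k S) : PI k (closure S) := by
  classical
  refine h.extend fun a i hS x hx => ?_
  have hc : Continuous fun x : R => std k R (update a i x) :=
    continuous_std.comp (continuous_const.update i continuous_id)
  exact closure_minimal (s := S) (t := {x | std k R (update a i x) = 0}) hS
    (isClosed_eq hc continuous_const) hx

/-- Limits of sequences taken in sets satisfying the identity. -/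
lemma PI.of_tendsto [TopologicalSpace R] [IsTopologicalRing R] [T2Space R] {S : ℕ → Set R}
    {T : Set R} (h : ∀ m, PI k (S m))
    (hT : ∀ x ∈ T, ∃ p : ℕ → R, (∀ m, p m ∈ S m) ∧ Filter.Tendsto p Filter.atTop (nhds x)) :
    PI k T := by
  intro a ha
  choose p hp hp' using fun i => hT (a i) (ha i)
  have h1 : Filter.Tendsto (fun m => fun i => p i m) Filter.atTop (nhds a) :=
    tendsto_pi_nhds.mpr hp'
  have h2 := (continuous_std (k := k) (R := R)).continuousAt.tendsto.comp h1
  have h3 : ((fun a : Fin k → R => std k R a) ∘ fun m => fun i => p i m) = fun _ => 0 := by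
    funext m; exact h m _ fun i => hp i m
  rw [h3] at h2
  exact tendsto_nhds_unique h2 tendsto_const_nhds

lemma PI.of_finrank [FiniteDimensional ℂ R] (hk : Module.finrank ℂ R < k) :
    PI k (Set.univ : Set R) := by
  intro a _
  refine (std k R).map_linearDependent a fun hli => ?_
  have := hli.fintype_card_le_finrank
  simp at this
  omega

lemma prod_ofFn_mul {M : Type*} [Monoid M] : ∀ {k : ℕ} (b g : Fin k → M)
    (_ : ∀ i j, Commute (b i) (g j)),
    (List.ofFn fun i => b i * g i).prod = (List.ofFn b).prod * (List.ofFn g).prod
  | 0, _, _, _ => by simp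
  | k + 1, b, g, h => by
    simp only [List.ofFn_succ, List.prod_cons]
    rw [prod_ofFn_mul (fun i => b i.succ) (fun i => g i.succ) (fun i j => h _ _)]
    have : Commute (g 0) (List.ofFn fun i : Fin k => b i.succ).prod :=
      Commute.list_prod_right _ _ fun x hx => by
        obtain ⟨i, rfl⟩ := List.mem_ofFn.mp hx
        exact (h _ _).symm
    simp only [mul_assoc]
    congr 1
    rw [← mul_assoc, this.eq, mul_assoc]

/-- Adjoining commuting central elements preserves the identity. -/
lemma PI.central {S G : Set R} (h : PI k S) (hSG : ∀ b ∈ S, ∀ g ∈ G, Commute b g)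
    (hG : ∀ g ∈ G, ∀ g' ∈ G, Commute g g') : PI k {x | ∃ b ∈ S, ∃ g ∈ G, x = b * g} := by
  intro a ha
  choose b hb g hg hx using ha
  have : std k R a = std k R b * (List.ofFn g).prod := by
    rw [std_apply, std_apply, Finset.sum_mul]
    refine Finset.sum_congr rfl fun σ _ => ?_
    rw [smul_mul_assoc]
    congr 1
    simp only [hx]
    rw [prod_ofFn_mul (fun i => b (σ i)) (fun i => g (σ i))
      (fun i j => hSG _ (hb _) _ (hg _))]
    congr 1
    refine List.Perm.prod_eq' (σ.ofFn_comp_perm g) ?_
    rw [List.pairwise_ofFn]
    intro i j _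
    exact hG _ (hg _) _ (hg _)
  rw [this, h b hb, zero_mul]

end Pool.Agent.Lib.MP_f09365_an
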