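import Pool.Agent.Lib.MP_f09365_an.Defs
import Pool.Agent.Lib.MP_f09365_an.PI

namespace Pool.Agent.Lib.MP_f09365_an

open Function

variable {H : Type*} [NormedAddCommGroup H] [InnerProductSpace ℂ H] [CompleteSpace H]

lemma schur_sa (S : Set (H →L[ℂ] H))
    (hirr : ∀ K : Submodule ℂ H, IsClosed (K : Set H) → (∀ a ∈ S, ∀ x ∈ K, a x ∈ K) →
      K = ⊥ ∨ K = ⊤) (T : H →L[ℂ] H) (hT : IsSelfAdjoint T) (hc : ∀ a ∈ S, Commute T a) :
    ∃ c : ℝ, T = algebraMap ℝ (H →L[ℂ] H) c := by
  have key : ∀ l ∈ spectrum ℝ T, ∀ m ∈ spectrum ℝ T, ¬ l < m := by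
    intro l hl m hm hlm
    set c := (l + m) / 2 with hcdef
    set f : ℝ → ℝ := fun t => max (t - c) 0 with hf
    set g : ℝ → ℝ := fun t => max (c - t) 0 with hg
    have hfc : Continuous f := by fun_prop
    have hgc : Continuous g := by fun_prop
    have hfg : cfc f T * cfc g T = 0 := by
      rw [← cfc_mul f g T, ← cfc_zero ℝ T]
      refine cfc_congr fun t _ => ?_
      simp only [hf, hg, Pi.zero_apply]
      rcases le_total t c with h | h
      · rw [max_eq_right (by linarith), zero_mul]
      · rw [max_eq_right (a := c - t) (by linarith), mul_zero]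
    have hK := hirr (LinearMap.ker (cfc f T : H →L[ℂ] H).toLinearMap)
      (ContinuousLinearMap.isClosed_ker _) (fun a ha x hx => by
        have h1 : Commute (cfc f T) a := (hc a ha).cfc_real f
        have h2 : cfc f T x = 0 := hx
        show cfc f T (a x) = 0
        rw [← ContinuousLinearMap.mul_apply, h1.eq, ContinuousLinearMap.mul_apply, h2, map_zero])
    rcases hK with hK | hK
    · have : cfc g T = 0 := by
        ext x
        have : cfc g T x ∈ LinearMap.ker (cfc f T : H →L[ℂ] H).toLinearMap := by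
          show cfc f T (cfc g T x) = 0
          rw [← ContinuousLinearMap.mul_apply, hfg]; rfl
        rw [hK] at this
        simpa using this
      rw [← cfc_zero ℝ T] at this
      have := eqOn_of_cfc_eq_cfc this hgc.continuousOn continuousOn_const hT hl
      simp only [hg, Pi.zero_apply] at this
      have h2 := le_max_left (c - l) 0
      linarith
    · have : cfc f T = 0 := by
        ext x
        have : x ∈ LinearMap.ker (cfc f T : H →L[ℂ] H).toLinearMap := by rw [hK]; trivial
        simpa using this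
      rw [← cfc_zero ℝ T] at this
      have := eqOn_of_cfc_eq_cfc this hfc.continuousOn continuousOn_const hT hm
      simp only [hf, Pi.zero_apply] at this
      have h2 := le_max_left (m - c) 0
      linarith
  by_cases hne : (spectrum ℝ T).Nonempty
  · obtain ⟨l, hl⟩ := hne
    refine ⟨l, CFC.eq_algebraMap_of_spectrum_subset_singleton T l (fun m hm => ?_) hT⟩
    exact le_antisymm (not_lt.mp (key l hl m hm)) (not_lt.mp (key m hm l hl))
  · refine ⟨0, CFC.eq_algebraMap_of_spectrum_subset_singleton T 0 (fun m hm => ?_) hT⟩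
    exact absurd ⟨m, hm⟩ hne

lemma schur (S : Set (H →L[ℂ] H)) (hS : ∀ a ∈ S, star a ∈ S)
    (hirr : ∀ K : Submodule ℂ H, IsClosed (K : Set H) → (∀ a ∈ S, ∀ x ∈ K, a x ∈ K) →
      K = ⊥ ∨ K = ⊤) (T : H →L[ℂ] H) (hc : ∀ a ∈ S, Commute T a) :
    ∃ c : ℂ, T = c • (1 : H →L[ℂ] H) := by
  have hc' : ∀ a ∈ S, Commute (star T) a := fun a ha => by
    have := (hc _ (hS a ha)).star_star
    simpa using this
  obtain ⟨c1, h1⟩ := schur_sa S hirr (T + star T) (IsSelfAdjoint.add_star_self T)
    (fun a ha => (hc a ha).add_left (hc' a ha))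
  obtain ⟨c2, h2⟩ := schur_sa S hirr (Complex.I • (T - star T))
    (by
      rw [IsSelfAdjoint, star_smul, star_sub, star_star]
      simp only [Complex.star_def, Complex.conj_I, neg_smul]
      rw [← smul_neg, neg_sub])
    (fun a ha => ((hc a ha).sub_left (hc' a ha)).smul_left _)
  refine ⟨(c1 - Complex.I * c2) / 2, ?_⟩
  have e : T = (1 / 2 : ℂ) • ((T + star T) - Complex.I • (Complex.I • (T - star T))) := by
    rw [smul_smul, Complex.I_mul_I]
    module
  rw [e, h1, h2]
  simp only [Algebra.algebraMap_eq_smul_one]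
  rw [← Complex.coe_smul, ← Complex.coe_smul]
  module

/-- amplification -/
noncomputable def amp {ι : Type*} [Fintype ι] (a : H →L[ℂ] H) :
    PiLp 2 (fun _ : ι => H) →L[ℂ] PiLp 2 (fun _ : ι => H) :=
  (PiLp.continuousLinearEquiv 2 ℂ (fun _ : ι => H)).symm.toContinuousLinearMap ∘L
    ContinuousLinearMap.pi fun i => a ∘L PiLp.proj 2 (fun _ : ι => H) i

omit [CompleteSpace H] in
@[simp] lemma amp_apply {ι : Type*} [Fintype ι] (a : H →L[ℂ] H) (x : PiLp 2 (fun _ : ι => H))
    (i : ι) : amp a x i = a (x i) := rfl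

lemma density (S : StarSubalgebra ℂ (H →L[ℂ] H))
    (hc : ∀ T : H →L[ℂ] H, (∀ a ∈ S, Commute T a) → ∃ c : ℂ, T = c • (1 : H →L[ℂ] H))
    {ι : Type*} [Fintype ι] (ξ : ι → H) (T : H →L[ℂ] H) :
    (fun i => T (ξ i)) ∈ closure {y : ι → H | ∃ a ∈ S, y = fun i => a (ξ i)} := by
  classical
  let E := PiLp 2 (fun _ : ι => H)
  let ξ' : E := WithLp.toLp 2 ξ
  let M0 : Submodule ℂ E :=
    { carrier := {y | ∃ a ∈ S, y = amp a ξ'}
      add_mem' := by
        rintro _ _ ⟨a, ha, rfl⟩ ⟨b, hb, rfl⟩
        exact ⟨a + b, S.add_mem ha hb, by ext i; rfl⟩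
      zero_mem' := ⟨0, S.zero_mem, by ext i; simp⟩
      smul_mem' := by
        rintro c _ ⟨a, ha, rfl⟩
        exact ⟨c • a, S.smul_mem ha c, by ext i; rfl⟩ }
  let M := M0.topologicalClosure
  have hMc : IsClosed (M : Set E) := M0.isClosed_topologicalClosure
  haveI : CompleteSpace M := hMc.completeSpace_coe
  have hinv : ∀ a ∈ S, ∀ x ∈ M, amp a x ∈ M := by
    intro a ha x hx
    have : Set.MapsTo (amp a : E →L[ℂ] E) M0 M0 := by
      rintro _ ⟨b, hb, rfl⟩
      exact ⟨a * b, S.mul_mem ha hb, by ext i; simp⟩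
    exact this.closure (amp a).continuous hx
  have hadj : ∀ (a : H →L[ℂ] H) (x y : E), inner ℂ x (amp a y) = inner ℂ (amp (star a) x) y := by
    intro a x y
    simp only [E, PiLp.inner_apply, amp_apply]
    refine Finset.sum_congr rfl fun i _ => ?_
    rw [ContinuousLinearMap.star_eq_adjoint, ContinuousLinearMap.adjoint_inner_left]
  have hcomm : ∀ a ∈ S, ∀ x : E, M.starProjection (amp a x) = amp a (M.starProjection x) := by
    intro a ha x
    refine Submodule.eq_starProjection_of_mem_orthogonal
      (hinv a ha _ (M.starProjection_apply_mem x)) ?_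
    rw [← map_sub, Submodule.mem_orthogonal]
    intro m hm
    rw [hadj]
    exact (Submodule.mem_orthogonal _ _).mp (Submodule.sub_starProjection_mem_orthogonal x) _
      (hinv _ (star_mem ha) m hm)
  let inc : ι → (H →L[ℂ] E) := fun j =>
    (PiLp.continuousLinearEquiv 2 ℂ (fun _ : ι => H)).symm.toContinuousLinearMap ∘L
      ContinuousLinearMap.single ℂ (fun _ : ι => H) j
  have hinc : ∀ j x i, inc j x i = (Pi.single j x : ι → H) i := fun _ _ _ => rfl
  have hsum : ∀ x : E, x = ∑ j, inc j (x j) := by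
    intro x
    ext i
    simp only [E, WithLp.ofLp_sum, Finset.sum_apply]
    simp only [hinc]
    rw [Finset.sum_eq_single i] <;> simp +contextual [Pi.single_apply, eq_comm]
  let P : ι → ι → (H →L[ℂ] H) := fun i j =>
    PiLp.proj 2 (fun _ : ι => H) i ∘L M.starProjection ∘L inc j
  have hP : ∀ i j x, P i j x = M.starProjection (inc j x) i := fun _ _ _ => rfl
  have hPc : ∀ i j, ∃ c : ℂ, P i j = c • (1 : H →L[ℂ] H) := by
    intro i j
    refine hc _ fun a ha => ?_
    ext x
    simp only [ContinuousLinearMap.mul_apply, hP]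
    have : inc j (a x) = amp a (inc j x) := by
      ext r
      simp only [hinc, amp_apply, Pi.single_apply]
      split_ifs <;> simp
    rw [this, hcomm a ha, amp_apply]
  choose c hcP using hPc
  have hform : ∀ (x : E) i, M.starProjection x i = ∑ j, c i j • x j := by
    intro x i
    conv_lhs => rw [hsum x]
    rw [map_sum]
    simp only [E, WithLp.ofLp_sum, Finset.sum_apply]
    refine Finset.sum_congr rfl fun j _ => ?_
    rw [← hP, hcP]
    simp
  have hξ : ξ' ∈ M := M0.le_topologicalClosure ⟨1, S.one_mem, by ext i; simp⟩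
  have hξ2 : ∀ i, ξ i = ∑ j, c i j • ξ j := fun i => by
    have := hform ξ' i
    rw [Submodule.starProjection_eq_self_iff.mpr hξ] at this
    exact this
  have hT : amp T ξ' ∈ M := by
    rw [← Submodule.starProjection_eq_self_iff]
    ext i
    rw [hform, amp_apply]
    show _ = T (ξ i)
    conv_rhs => rw [hξ2 i]
    simp [ξ']
  have hmap : Set.MapsTo (fun x : E => WithLp.ofLp x) M0
      {y : ι → H | ∃ a ∈ S, y = fun i => a (ξ i)} := by
    rintro _ ⟨a, ha, rfl⟩
    exact ⟨a, ha, rfl⟩
  exact hmap.closure (PiLp.continuous_ofLp 2 _) hT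

lemma prod_update_eq {M : Type*} [Monoid M] {k : ℕ} (b : Fin k → M) (j : Fin k) :
    ∃ L R : M, ∀ X, (List.ofFn (update b j X)).prod = L * X * R := by
  refine ⟨((List.ofFn b).take j).prod, ((List.ofFn b).drop (j + 1)).prod, fun X => ?_⟩
  have : List.ofFn (update b j X) = (List.ofFn b).set j X := by
    apply List.ext_getElem
    · simp
    · intro i h1 h2
      simp only [List.getElem_ofFn, List.getElem_set]
      by_cases e : (j : ℕ) = i
      · have : (⟨i, by simpa using h1⟩ : Fin k) = j := Fin.ext e.symm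
        simp [e, this]
      · have : (⟨i, by simpa using h1⟩ : Fin k) ≠ j := fun h => e (by rw [← h])
        simp [e, update_of_ne this]
  rw [this, List.prod_set]
  simp

lemma PI.univ_of_commutant {k : ℕ} (S : StarSubalgebra ℂ (H →L[ℂ] H))
    (hc : ∀ T : H →L[ℂ] H, (∀ a ∈ S, Commute T a) → ∃ c : ℂ, T = c • (1 : H →L[ℂ] H))
    (h : PI k (S : Set (H →L[ℂ] H))) : PI k (Set.univ : Set (H →L[ℂ] H)) := by
  classical
  refine h.extend fun a i hS T _ => ?_
  have h1 : ∀ σ : Equiv.Perm (Fin k), ∃ L R : H →L[ℂ] H, ∀ X,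
      (List.ofFn fun r => update a i X (σ r)).prod = L * X * R := by
    intro σ
    obtain ⟨L, R, hLR⟩ := prod_update_eq (a ∘ σ) (σ.symm i)
    refine ⟨L, R, fun X => ?_⟩
    rw [← hLR, ← update_comp_equiv]
    rfl
  choose L R hLR using h1
  ext x
  let F : (Equiv.Perm (Fin k) → H) → H := fun y => ∑ σ, ((Equiv.Perm.sign σ : ℤˣ) : ℤ) • L σ (y σ)
  have hF : Continuous F := by
    refine continuous_finset_sum _ fun σ _ => Continuous.zsmul ?_ _
    exact (L σ).continuous.comp (continuous_apply σ)
  have hFX : ∀ X : H →L[ℂ] H, std k _ (update a i X) x = F (fun σ => X (R σ x)) := by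
    intro X
    rw [std_apply]
    simp only [hLR, F, ContinuousLinearMap.sum_apply, Units.smul_def]
    rfl
  rw [hFX]
  have hcl := density S hc (fun σ => R σ x) T
  refine closure_minimal (t := {y | F y = 0}) ?_ (isClosed_eq hF continuous_const) hcl
  rintro _ ⟨b, hb, rfl⟩
  show F _ = 0
  rw [← hFX, hS b hb]
  rfl

omit [CompleteSpace H] in
lemma stair_prod {k : ℕ} (e : ℕ → H) (T : ℕ → (H →L[ℂ] H))
    (hT : ∀ j < k, ∀ i ≤ k, T j (e i) = if i = j + 1 then e j else 0) :
    ∀ (L : List ℕ), (∀ j ∈ L, j < k) → ∀ i ≤ k,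
      ((L.map T).prod (e i) = 0 ∨ (L.length ≤ i ∧ L = List.range' (i - L.length) L.length ∧
        (L.map T).prod (e i) = e (i - L.length)))
  | [], _, i, _ => by right; simp
  | j :: L, hL, i, hi => by
    have hj : j < k := hL j (by simp)
    rcases stair_prod e T hT L (fun j hj => hL j (by simp [hj])) i hi with h | ⟨h1, h2, h3⟩
    · left; simp [h]
    · simp only [List.map_cons, List.prod_cons, ContinuousLinearMap.mul_apply, h3, List.length_cons]
      rw [hT j hj _ (by omega)]
      split_ifs with h4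
      · right
        have : i - (L.length + 1) = j := by omega
        refine ⟨by omega, ?_, by rw [this]⟩
        rw [this, List.range'_succ, ← h4, ← h2]
      · left; rfl

omit [CompleteSpace H] in
lemma stair_id {k : ℕ} (e : ℕ → H) (T : ℕ → (H →L[ℂ] H))
    (hT : ∀ j < k, ∀ i ≤ k, T j (e i) = if i = j + 1 then e j else 0) :
    ∀ (m a : ℕ), a + m ≤ k → ((List.range' a m).map T).prod (e (a + m)) = e a
  | 0, a, _ => by simp
  | m + 1, a, h => by
    rw [List.range'_succ, List.map_cons, List.prod_cons, ContinuousLinearMap.mul_apply]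
    have := stair_id e T hT m (a + 1) (by omega)
    rw [show a + (m + 1) = a + 1 + m by omega, this, hT a (by omega) _ (by omega)]
    simp

lemma rank_le_of_PI {k : ℕ} (h : PI k (Set.univ : Set (H →L[ℂ] H))) : Module.rank ℂ H ≤ k := by
  classical
  by_contra hlt
  have h1 : ((k + 1 : ℕ) : Cardinal) ≤ Module.rank ℂ H := by
    rw [not_le] at hlt
    rw [Nat.cast_succ]
    exact Cardinal.add_one_le_of_lt hlt
  obtain ⟨f, hf⟩ := exists_linearIndependent_of_le_rank h1
  have ho := InnerProductSpace.gramSchmidtNormed_orthonormal hf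
  set e0 := InnerProductSpace.gramSchmidtNormed ℂ f with he0
  let e : ℕ → H := fun i => if hi : i < k + 1 then e0 ⟨i, hi⟩ else 0
  let T : ℕ → (H →L[ℂ] H) := fun j => InnerProductSpace.rankOne ℂ (e j) (e (j + 1))
  have hT : ∀ j < k, ∀ i ≤ k, T j (e i) = if i = j + 1 then e j else 0 := by
    intro j hj i hi
    have h2 : inner ℂ (e (j + 1)) (e i) = if i = j + 1 then (1 : ℂ) else 0 := by
      simp only [e, dif_pos (show j + 1 < k + 1 by omega), dif_pos (show i < k + 1 by omega)]
      rw [orthonormal_iff_ite.mp ho]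
      simp [Fin.ext_iff, eq_comm]
    simp only [T, InnerProductSpace.rankOne_apply, h2]
    split_ifs <;> simp
  have h0 := h (fun j : Fin k => T j) (fun _ => trivial)
  have h2 : std k _ (fun j : Fin k => T j) (e k) = e 0 := by
    rw [std_apply]
    simp only [ContinuousLinearMap.sum_apply, Units.smul_def]
    have hl : ∀ σ : Equiv.Perm (Fin k), (List.ofFn fun i => T (σ i)) =
        (List.ofFn fun i => ((σ i : Fin k) : ℕ)).map T := fun σ => by
      rw [List.map_ofFn]; rfl
    have hr : (List.ofFn fun i : Fin k => (i : ℕ)) = List.range' 0 k := by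
      apply List.ext_getElem <;> simp
    rw [Finset.sum_eq_single 1]
    · rw [hl]
      simp only [Equiv.Perm.coe_one, id, hr, Equiv.Perm.sign_one, Units.val_one, one_smul]
      simpa using stair_id e T hT k 0 (by omega)
    · intro σ _ hσ
      rw [hl]
      rcases stair_prod e T hT (List.ofFn fun i => ((σ i : Fin k) : ℕ)) (fun j hj => by
        obtain ⟨i, rfl⟩ := List.mem_ofFn.mp hj
        exact (σ i).2) k le_rfl with h3 | ⟨_, h3, _⟩
      · rw [ContinuousLinearMap.smul_apply, h3, smul_zero]
      · exfalso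
        apply hσ
        simp only [List.length_ofFn, Nat.sub_self] at h3
        rw [← hr, List.ofFn_inj] at h3
        ext i
        exact congrFun h3 i
    · simp
  rw [h0] at h2
  have h3 := ho.1 ⟨0, by omega⟩
  have h4 : e 0 = e0 ⟨0, by omega⟩ := by simp [e]
  rw [← h4, ← h2] at h3
  simp at h3

universe v in
theorem subhomogeneous_of_PI {A : Type*} [Ring A] [StarRing A] [Algebra ℂ A] [StarModule ℂ A]
    (B : StarSubalgebra ℂ A) {k : ℕ} (h : PI k (B : Set A)) : Subhomogeneous.{v} B := by
  refine ⟨k + 1, fun H _ _ _ π hπ => ?_⟩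
  have hsch := schur (Set.range π) (by rintro _ ⟨b, rfl⟩; exact ⟨star b, map_star π b⟩)
    (fun K hK hinv => hπ K hK fun b x hx => hinv _ ⟨b, rfl⟩ x hx)
  obtain ⟨c, hc⟩ := hsch (π 1) (by
    rintro _ ⟨b, rfl⟩
    rw [Commute, SemiconjBy, ← map_mul, ← map_mul, one_mul, mul_one])
  by_cases h1 : π 1 = 1
  · let ρ : B →⋆ₐ[ℂ] (H →L[ℂ] H) :=
      { toFun := π
        map_one' := h1
        map_mul' := map_mul π
        map_zero' := map_zero π
        map_add' := map_add π
        commutes' := fun r => by
          rw [Algebra.algebraMap_eq_smul_one, Algebra.algebraMap_eq_smul_one, map_smul, h1]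
        map_star' := map_star π }
    have hPI : PI k (ρ.range : Set (H →L[ℂ] H)) := by
      intro a ha
      choose b hb using ha
      have e1 : a = fun i => ρ.toRingHom (b i) := funext fun i => (hb i).symm
      rw [e1, ← map_std]
      have e2 : std k B b = 0 := by
        apply Subtype.ext
        have := map_std (B.subtype : B →⋆ₐ[ℂ] A).toRingHom b
        exact this.trans (h _ fun i => (b i).2)
      rw [e2, map_zero]
    have := rank_le_of_PI (PI.univ_of_commutant ρ.range
      (fun T hT => hsch T (by rintro _ ⟨b, rfl⟩; exact hT _ ⟨b, rfl⟩)) hPI)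
    exact this.trans (by exact_mod_cast Nat.le_succ k)
  · have hc0 : c = 0 := by
      by_contra hc0
      apply h1
      have e : π 1 * π 1 = π 1 := by rw [← map_mul, one_mul]
      have e2 : c • π 1 = c • (1 : H →L[ℂ] H) := by
        rw [← hc]
        nth_rewrite 2 [← e]
        nth_rewrite 2 [hc]
        simp
      exact smul_right_injective _ hc0 e2
    have h0 : ∀ b, π b = 0 := fun b => by
      rw [← one_mul b, map_mul, hc, hc0]; simp
    have : Module.rank ℂ H ≤ 1 := by
      rw [rank_le_one_iff]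
      by_cases hs : ∃ x : H, x ≠ 0
      · obtain ⟨x, hx⟩ := hs
        refine ⟨x, fun y => ?_⟩
        rcases hπ (Submodule.span ℂ {x}) (Submodule.closed_of_finiteDimensional _)
          (fun b y _ => by rw [h0]; exact Submodule.zero_mem _) with h2 | h2
        · exact absurd (Submodule.span_singleton_eq_bot.mp h2) hx
        · exact Submodule.mem_span_singleton.mp (h2 ▸ Submodule.mem_top)
      · push Not at hs
        exact ⟨0, fun y => ⟨0, by rw [hs y]; simp⟩⟩
    exact this.trans (by exact_mod_cast Nat.succ_le_succ (Nat.zero_le k))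

end Pool.Agent.Lib.MP_f09365_an
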