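import Pool.Agent.Lib.MP_f09365_an.Step
import Pool.Agent.Lib.MP_f09365_an.Irr

namespace Pool.Agent.Lib.MP_f09365_an

open Filter Topology Set

variable {X : Type*} [MetricSpace X] [CompactSpace X] {A : Type*} [CStarAlgebra A]
variable {h : X ≃ₜ X} {φ : C(X, ℂ) →⋆ₐ[ℂ] A} {u : unitary A}

lemma exists_chain {α : Type*} (P : ℕ → α → Prop) (R : ℕ → α → α → Prop) (h0 : ∃ a, P 0 a)
    (hs : ∀ n a, P n a → ∃ b, P (n + 1) b ∧ R n a b) :
    ∃ f : ℕ → α, ∀ n, P n (f n) ∧ R n (f n) (f (n + 1)) := by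
  choose g hg using hs
  obtain ⟨a, ha⟩ := h0
  let f : (n : ℕ) → {a // P n a} := fun n =>
    Nat.rec ⟨a, ha⟩ (fun n p => ⟨g n p.1 p.2, (hg n p.1 p.2).1⟩) n
  exact ⟨fun n => (f n).1, fun n => ⟨(f n).2, (hg n _ (f n).2).2⟩⟩

theorem exists_PI_chain [Infinite X] (hc : Cov h φ u)
    (hmin : ∀ x, Dense (range fun n : ℤ => (h ^ n) x))
    (hgen : (StarAlgebra.adjoin ℂ (range φ ∪ {(u : A)})).topologicalClosure = ⊤) (a : ℕ → A) :
    ∃ B : ℕ → StarSubalgebra ℂ A, Monotone B ∧ (∀ n, IsClosed (B n : Set A)) ∧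
      (∀ n, ∃ k, PI k (B n : Set A)) ∧ ∀ i, a i ∈ closure (⋃ n, (B n : Set A)) := by
  obtain ⟨y⟩ : Nonempty X := inferInstance
  obtain ⟨s, hs⟩ := exists_chain (Inv h φ u y) (fun n s s' => ∃ d, Rel φ u y a n s s' d)
    ⟨⟨∅, 1, fun _ => 1, 1⟩, finite_empty, by simp, one_mem _, one_pos, fun j => by
      simp only [mul_one, Unitary.mul_star_self_of_mem u.2]; exact one_mem _, fun _ _ => rfl⟩
    (fun n s hs => step hc hmin hgen y a n s hs)
  choose d hd using fun n => (hs n).2
  have hV : ∀ n, (s n).V ∈ unitary A := fun n => (hs n).1.2.2.1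
  have hε : ∀ n, 0 < (s n).ε := fun n => (hs n).1.2.2.2.1
  have h1 : ∀ n j, n ≤ j → (s n).η j = 1 := fun n => (hs n).1.2.2.2.2.2
  have h3 : ∀ n (b : A), (s n).V * (star (s n).V * b * (s n).V) * star (s n).V = b := fun n b => by
    simp only [← mul_assoc, Unitary.mul_star_self_of_mem (hV n), one_mul]
    rw [mul_assoc, Unitary.mul_star_self_of_mem (hV n), mul_one]
  have hH : Monotone fun n => (d n).H :=
    monotone_nat_of_le_succ fun n => (hd n).sub2.trans (hd (n + 1)).sub1
  have hGH : ∀ j m, j ≤ m → (s j).G ⊆ (d m).H := fun j m hjm => (hd j).sub1.trans (hH hjm)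
  have hconj : ∀ m (b : A), (s (m + 1)).V * b * star (s (m + 1)).V =
      (s m).V * ((d m).W * b * star (d m).W) * star (s m).V := fun m b => by
    rw [(hd m).hV, star_mul]; simp only [mul_assoc]
  have hfun : ∀ j, ∀ g ∈ (d j).H, ∀ m, j ≤ m →
      (s m).V * φ g * star (s m).V = (s j).V * φ g * star (s j).V := by
    intro j g hg m hm
    induction m, hm using Nat.le_induction with
    | base => rfl
    | succ m hm ih => rw [hconj, conj_commute (hd m).hW ((hd m).comm g (hH hm hg)), ih]
  have hloc : ∀ j m, j ≤ m → Loc φ y (s j).G ((s m).η j) := by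
    intro j m hm
    induction m, hm using Nat.le_induction with
    | base => rw [h1 j j le_rfl]; exact Loc.one y _
    | succ m hm ih => rw [(hd m).eta j hm]; exact ih.mul ((hd m).loc.mono (hGH j m hm))
  have hsplit : ∀ j m, j + 1 ≤ m → (s m).η j = (d j).w * (s m).η (j + 1) := by
    intro j m hm
    induction m, hm using Nat.le_induction with
    | base => rw [(hd j).eta j le_rfl, h1 j j le_rfl, h1 (j + 1) (j + 1) le_rfl, one_mul, mul_one]
    | succ m hm ih => rw [(hd m).eta j (by omega), (hd m).eta (j + 1) hm, ih, mul_assoc]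
  have hgeo : ∀ j m, (s (m + j + 1)).ε ≤ (d j).τ / 2 / 2 ^ m := by
    intro j m
    induction m with
    | zero => have := (hd j).eps2; simp only [zero_add, pow_zero]; linarith
    | succ m ih =>
      have := (hd (m + j + 1)).eps1
      rw [show m + 1 + j + 1 = m + j + 1 + 1 by omega, pow_succ, ← div_div]
      linarith
  set x : ℕ → ℕ → A := fun j m => (s m).V * (u * (s m).η j) * star (s m).V with hx
  have hinc : ∀ j m, dist (x j (m + j)) (x j (m + 1 + j)) ≤ (d j).τ / 2 / 2 ^ m := by
    intro j m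
    refine le_trans ?_ (hgeo j m)
    rw [dist_comm, dist_eq_norm, show m + 1 + j = m + j + 1 by omega]
    simp only [hx]
    rw [hconj, ← sub_mul, ← mul_sub, norm_conj (hV _), (hd _).eta j (by omega), ← mul_assoc (u : A)]
    exact (hd _).inc j (by omega)
  choose ub hub using fun j => cauchySeq_tendsto_of_complete
    (cauchySeq_of_le_geometric_two (f := fun m => x j (m + j)) (hinc j))
  have hub0 : ∀ j, ‖star (s j).V * ub j * (s j).V - u‖ ≤ (d j).τ := by
    intro j
    have := dist_le_of_le_geometric_two_of_tendsto₀ (f := fun m => x j (m + j)) (hinc j) (hub j)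
    simp only [hx, zero_add, h1 j j le_rfl, mul_one] at this
    rw [dist_comm, dist_eq_norm] at this
    rw [← norm_conj (hV j), mul_sub, sub_mul, h3]
    exact this
  have hub' : ∀ j, Tendsto (x j) atTop (𝓝 (ub j)) := fun j =>
    (tendsto_add_atTop_iff_nat j).mp (hub j)
  set S : ℕ → Set A := fun j => (fun g => (s j).V * φ g * star (s j).V) '' (d j).H with hS
  have hSm : ∀ j m, j ≤ m → ∀ w : A, (fun b => (s m).V * b * star (s m).V) '' (φ '' (d j).H ∪ {w}) =
      S j ∪ {(s m).V * w * star (s m).V} := by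
    intro j m hm w
    rw [image_union, image_singleton, image_image]
    congr 1
    exact image_congr fun g hg => hfun j g hg m hm
  refine ⟨fun j => (StarAlgebra.adjoin ℂ (S j ∪ {ub j})).topologicalClosure, ?_,
    fun j => StarSubalgebra.isClosed_topologicalClosure _, fun j => ⟨(d j).k, ?_⟩, fun i => ?_⟩
  · refine monotone_nat_of_le_succ fun j => StarSubalgebra.topologicalClosure_mono ?_
    refine StarAlgebra.adjoin_le ?_
    rintro _ (⟨g, hg, rfl⟩ | rfl)
    · exact StarAlgebra.subset_adjoin _ _ (Or.inl ⟨g, hH (Nat.le_succ j) hg,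
        hfun j g hg (j + 1) (Nat.le_succ j)⟩)
    · have hu1 : ub (j + 1) ∈ StarAlgebra.adjoin ℂ (S (j + 1) ∪ {ub (j + 1)}) :=
        StarAlgebra.subset_adjoin _ _ (Or.inr rfl)
      have hg1 : ∀ g ∈ (s (j + 1)).G, (s (j + 1)).V * φ g * star (s (j + 1)).V ∈
          StarAlgebra.adjoin ℂ (S (j + 1) ∪ {ub (j + 1)}) := fun g hg =>
        StarAlgebra.subset_adjoin _ _ (Or.inl ⟨g, (hd _).sub1 hg, rfl⟩)
      obtain ⟨b, hb, hlim⟩ := conj_lim_mem atTop (fun m => (s m).V) hV _
        (StarAlgebra.adjoin ℂ (S (j + 1) ∪ {ub (j + 1)})) (by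
          rintro _ (⟨g, hg, rfl⟩ | ⟨c, hc', h0, rfl⟩)
          · refine ⟨_, hg1 g hg, tendsto_const_nhds.congr' ?_⟩
            filter_upwards [eventually_ge_atTop (j + 1)] with m hm
            exact (hfun _ g ((hd _).sub1 hg) m hm).symm
          · refine ⟨_, mul_mem hu1 (hg1 c hc'), ((hub' (j + 1)).mul_const _).congr' ?_⟩
            filter_upwards [eventually_ge_atTop (j + 1)] with m hm
            rw [← hfun _ c ((hd _).sub1 hc') m hm]
            simp only [hx]
            rw [← conj_mul (hV m), mul_assoc (u : A), (hloc _ m hm).mul_eq hc' h0])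
        (hd j).pal
      have : Tendsto (x j) atTop (𝓝 (b * ub (j + 1))) := by
        refine (hlim.mul (hub' (j + 1))).congr' ?_
        filter_upwards [eventually_ge_atTop (j + 1)] with m hm
        simp only [hx]
        rw [← conj_mul (hV m), hsplit j m hm]
        simp only [mul_assoc]
        rw [← mul_assoc (star (u : A)), Unitary.star_mul_self_of_mem u.2, one_mul]
      rw [SetLike.mem_coe, tendsto_nhds_unique (hub' j) this]
      exact mul_mem hb hu1
  · refine PI.closure (PI.of_tendsto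
      (S := fun m => StarAlgebra.adjoin ℂ (S j ∪ {x j (m + (j + 1))})) (fun m => ?_) fun p hp => ?_)
    · have := ((hd j).pi _ (hloc (j + 1) (m + (j + 1)) (by omega))).conj (hV (m + (j + 1)))
      rw [hSm j _ (by omega), mul_assoc (u : A), ← hsplit j _ (by omega)] at this
      exact this
    · exact adjoin_move atTop (S j) _ ((tendsto_add_atTop_iff_nat (j + 1)).mpr (hub' j)) hp
  · rw [Metric.mem_closure_iff]
    intro ε hε0
    obtain ⟨n, hn1, hn2⟩ := ((tendsto_one_div_add_atTop_nhds_zero_nat.eventually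
      (gt_mem_nhds hε0)).and (eventually_ge_atTop i)).exists
    obtain ⟨p, hp, hpa⟩ := (hd n).app _ (hub0 n) i hn2
    have h2 := conj_mem_adjoin (hV n) hp
    rw [hSm n n le_rfl, h3] at h2
    refine ⟨_, mem_iUnion.mpr ⟨n, StarSubalgebra.le_topologicalClosure _ h2⟩, ?_⟩
    rw [dist_comm, dist_eq_norm, ← h3 n (a i), ← sub_mul, ← mul_sub, norm_conj (hV n)]
    exact hpa.trans_lt hn1

universe v in
open scoped CStarAlgebra in
theorem ash [Infinite X] (hc : Cov h φ u) (hmin : ∀ x, Dense (range fun n : ℤ => (h ^ n) x))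
    (hgen : (StarAlgebra.adjoin ℂ (range φ ∪ {(u : A)})).topologicalClosure = ⊤) :
    ∃ B : ℕ → StarSubalgebra ℂ A, Monotone B ∧ (∀ n, IsClosed (B n : Set A)) ∧
      (∀ n, Subhomogeneous.{v} (B n)) ∧ Dense (⋃ n, (B n : Set A)) := by
  obtain ⟨B, h1, h2, h3, h4⟩ := exists_PI_chain hc hmin hgen
    (fun i => Nat.casesOn i (u : A) fun i => φ (TopologicalSpace.denseSeq C(X, ℂ) i))
  refine ⟨B, h1, h2, fun n => ?_, ?_⟩
  · obtain ⟨k, hk⟩ := h3 n
    exact subhomogeneous_of_PI _ hk
  · let D := dirU B h1.directed_le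
    have h5 : StarAlgebra.adjoin ℂ (range φ ∪ {(u : A)}) ≤ D.topologicalClosure := by
      refine StarAlgebra.adjoin_le ?_
      rintro _ (⟨f, rfl⟩ | rfl)
      · have := MapsTo.closure (s := range (TopologicalSpace.denseSeq C(X, ℂ)))
          (t := closure (⋃ n, (B n : Set A))) (f := φ) (by rintro _ ⟨i, rfl⟩; exact h4 (i + 1))
          (map_continuous φ) (TopologicalSpace.denseRange_denseSeq C(X, ℂ) f)
        rw [closure_closure] at this
        exact this
      · exact h4 0
    have h6 := StarSubalgebra.topologicalClosure_minimal h5 D.isClosed_topologicalClosure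
    rw [hgen] at h6
    exact fun a => h6 (StarSubalgebra.mem_top (x := a))

end Pool.Agent.Lib.MP_f09365_an
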