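import Pool.Agent.Lib.MP_f09365_an.PI
import Pool.Agent.Lib.MP_f09365_an.Bump
import Pool.Agent.Lib.MP_f09365_an.GGT

namespace Pool.Agent.Lib.MP_f09365_an

open Filter Topology Set

variable {X : Type*} [MetricSpace X] [CompactSpace X] {A : Type*} [CStarAlgebra A]

/-- translate of a function -/
noncomputable def sh (h : X ≃ₜ X) (n : ℤ) (f : C(X, ℂ)) : C(X, ℂ) :=
  f.comp ((h ^ n : X ≃ₜ X) : C(X, X))

omit [CompactSpace X] in
@[simp] lemma sh_apply (h : X ≃ₜ X) (n : ℤ) (f : C(X, ℂ)) (x : X) :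
    sh h n f x = f ((h ^ n) x) := rfl

omit [CompactSpace X] in
lemma sh_sh (h : X ≃ₜ X) (m n : ℤ) (f : C(X, ℂ)) : sh h n (sh h m f) = sh h (m + n) f := by
  ext x; simp [zpow_apply_add]

omit [CompactSpace X] in
@[simp] lemma sh_zero (h : X ≃ₜ X) (f : C(X, ℂ)) : sh h 0 f = f := by ext x; simp

/-- integer powers of the unitary -/
noncomputable def U (u : unitary A) (n : ℤ) : A := ((u ^ n : unitary A) : A)

lemma U_add (u : unitary A) (m n : ℤ) : U u (m + n) = U u m * U u n := by simp [U, zpow_add]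
@[simp] lemma U_zero (u : unitary A) : U u 0 = 1 := by simp [U]
lemma U_one (u : unitary A) : U u 1 = u := by simp [U]
lemma U_star (u : unitary A) (n : ℤ) : star (U u n) = U u (-n) := by
  simp only [U, zpow_neg]; rfl
lemma U_neg_one (u : unitary A) : U u (-1) = star (u : A) := by rw [← U_star, U_one]
lemma U_nat (u : unitary A) (n : ℕ) : U u n = (u : A) ^ n := by simp [U]
lemma U_neg_nat (u : unitary A) (n : ℕ) : U u (-n) = star (u : A) ^ n := by
  rw [← U_star, U_nat, star_pow]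
lemma U_mem (u : unitary A) (n : ℤ) : U u n ∈ unitary A := (u ^ n).2

/-- covariance -/
def Cov (h : X ≃ₜ X) (φ : C(X, ℂ) →⋆ₐ[ℂ] A) (u : unitary A) : Prop :=
  ∀ (n : ℤ) (f : C(X, ℂ)), φ f * U u n = U u n * φ (sh h n f)

lemma cov_of (h : X ≃ₜ X) (φ : C(X, ℂ) →⋆ₐ[ℂ] A) (u : unitary A)
    (hc : ∀ f : C(X, ℂ), (u : A) * φ f * star (u : A) = φ (f.comp (h.symm : C(X, X)))) :
    Cov h φ u := by
  have h1 : ∀ f, φ f * U u (-1) = U u (-1) * φ (sh h (-1) f) := by
    intro f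
    have : sh h (-1) f = f.comp (h.symm : C(X, X)) := by ext x; simp
    rw [this, ← hc, U_neg_one, ← mul_assoc, ← mul_assoc, Unitary.star_mul_self_of_mem u.2, one_mul]
  have h2 : ∀ f, φ f * U u 1 = U u 1 * φ (sh h 1 f) := by
    intro f
    have := h1 (sh h 1 f)
    rw [sh_sh, add_neg_cancel, sh_zero] at this
    calc φ f * U u 1 = U u 1 * (U u (-1) * φ f) * U u 1 := by
          rw [← mul_assoc, ← U_add]; simp
      _ = U u 1 * φ (sh h 1 f) := by
          rw [← this, mul_assoc, mul_assoc, ← U_add]; simp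
  intro n
  induction n using Int.induction_on with
  | zero => simp
  | succ n ih => intro f; rw [U_add, ← mul_assoc, ih, mul_assoc, h2, sh_sh, mul_assoc]
  | pred n ih =>
    intro f; rw [sub_eq_add_neg, U_add, ← mul_assoc, ih, mul_assoc, h1, sh_sh, mul_assoc]

variable {h : X ≃ₜ X} {φ : C(X, ℂ) →⋆ₐ[ℂ] A} {u : unitary A}

lemma Cov.mon_mul (hc : Cov h φ u) (j j' : ℤ) (F F' : C(X, ℂ)) :
    U u j * φ F * (U u j' * φ F') = U u (j + j') * φ (sh h j' F * F') := by
  rw [mul_assoc, ← mul_assoc (φ F), hc, U_add, map_mul]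
  simp only [mul_assoc]

lemma Cov.mon_star (hc : Cov h φ u) (j : ℤ) (F : C(X, ℂ)) :
    star (U u j * φ F) = U u (-j) * φ (sh h (-j) (star F)) := by
  rw [star_mul, U_star, ← map_star, hc]

/-- admissible monomials do not cross `K` -/
def Adm (h : X ≃ₜ X) (K : Set X) (j : ℤ) (F : C(X, ℂ)) : Prop :=
  ∀ x, F x ≠ 0 → ∀ r : ℤ, ((0 ≤ r ∧ r < j) ∨ (j ≤ r ∧ r < 0)) → (h ^ r) x ∉ K

omit [CompactSpace X] in
lemma Adm.mul {K : Set X} {j j' : ℤ} {F F' : C(X, ℂ)} (h1 : Adm h K j F) (h2 : Adm h K j' F') :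
    Adm h K (j + j') (sh h j' F * F') := by
  intro x hx r hr
  simp only [ContinuousMap.mul_apply, sh_apply, ne_eq, mul_eq_zero, not_or] at hx
  by_cases h3 : (0 ≤ r ∧ r < j') ∨ (j' ≤ r ∧ r < 0)
  · exact h2 x hx.2 r h3
  · have := h1 _ hx.1 (r - j') (by omega)
    rwa [zpow_apply_add, sub_add_cancel] at this

omit [CompactSpace X] in
lemma Adm.star {K : Set X} {j : ℤ} {F : C(X, ℂ)} (h1 : Adm h K j F) :
    Adm h K (-j) (sh h (-j) (star F)) := by
  intro x hx r hr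
  simp only [sh_apply, ContinuousMap.star_apply, ne_eq, star_eq_zero] at hx
  have := h1 _ hx (r + j) (by omega)
  rwa [zpow_apply_add, add_neg_cancel_right] at this

omit [CompactSpace X] in
lemma Adm.zero (K : Set X) (F : C(X, ℂ)) : Adm h K 0 F := fun _ _ r hr => by omega

omit [CompactSpace X] in
lemma Adm.one {K : Set X} {F : C(X, ℂ)} (hF : ∀ x ∈ K, F x = 0) : Adm h K 1 F := by
  intro x hx r hr hK
  obtain rfl : r = 0 := by omega
  exact hx (hF x (by simpa using hK))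

/-- the set of admissible monomials -/
def Mon (h : X ≃ₜ X) (φ : C(X, ℂ) →⋆ₐ[ℂ] A) (u : unitary A) (K : Set X) : Set A :=
  {a | ∃ j F, Adm h K j F ∧ a = U u j * φ F}

lemma Cov.pow_eq_zero (hc : Cov h φ u) {K : Set X} {M : ℕ} (hK : Syn h K M) {F : C(X, ℂ)}
    (hF : ∀ x ∈ K, F x = 0) : ((u : A) * φ F) ^ M = 0 := by
  have key : ∀ n : ℕ, ∃ G, Adm h K n G ∧ ((u : A) * φ F) ^ n = U u n * φ G := by
    intro n
    induction n with
    | zero => exact ⟨1, Adm.zero K 1, by simp⟩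
    | succ n ih =>
      obtain ⟨G, h1, h2⟩ := ih
      refine ⟨_, by exact_mod_cast h1.mul (Adm.one hF), ?_⟩
      rw [pow_succ, h2, ← U_one, hc.mon_mul]
      simp
  obtain ⟨G, h1, h2⟩ := key M
  have : G = 0 := by
    ext x
    by_contra hx
    obtain ⟨r, h3, h4, h5⟩ := hK x
    exact h1 x hx r (Or.inl ⟨h3, h4⟩) h5
  rw [h2, this, map_zero, mul_zero]

lemma Cov.nil (hc : Cov h φ u) {K : Set X} {M : ℕ} (hK : Syn h K M) {F : C(X, ℂ)}
    (hF : ∀ x ∈ K, F x = 0) :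
    ((u : A) * φ F) ^ (M + 1) = 0 ∧ (star (u : A) * φ F) ^ (M + 1) = 0 := by
  refine ⟨by rw [pow_succ, hc.pow_eq_zero hK hF, zero_mul], ?_⟩
  have h1 := hc.pow_eq_zero hK (F := star F) (fun x hx => by simp [hF x hx])
  have h2 := congrArg star h1
  rw [star_pow, star_mul, ← map_star, star_star, star_zero] at h2
  rw [pow_succ', mul_assoc, mul_pow_swap, h2]
  simp

/-- matrix of a monomial on a block -/
noncomputable def mat (h : X ≃ₜ X) (x : X) (p q : ℤ) (j : ℤ) (F : C(X, ℂ)) :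
    Matrix (Finset.Ioc p q) (Finset.Ioc p q) ℂ :=
  fun t' t => if (t' : ℤ) = t + j then F ((h ^ (t : ℤ)) x) else 0

omit [CompactSpace X] in
lemma Adm.block {K : Set X} {j : ℤ} {F : C(X, ℂ)} (h1 : Adm h K j F) {x : X} {p q t : ℤ}
    (hp : (h ^ p) x ∈ K) (hq : (h ^ q) x ∈ K) (ht : t ∈ Finset.Ioc p q)
    (hF : F ((h ^ t) x) ≠ 0) : t + j ∈ Finset.Ioc p q := by
  simp only [Finset.mem_Ioc] at ht ⊢
  constructor
  · by_contra h2
    refine h1 _ hF (p - t) (by omega) ?_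
    rwa [zpow_apply_add, sub_add_cancel]
  · by_contra h2
    refine h1 _ hF (q - t) (by omega) ?_
    rwa [zpow_apply_add, sub_add_cancel]

omit [CompactSpace X] in
lemma mat_mul {K : Set X} {j j' : ℤ} {F F' : C(X, ℂ)} (h2 : Adm h K j' F') {x : X} {p q : ℤ}
    (hp : (h ^ p) x ∈ K) (hq : (h ^ q) x ∈ K) :
    mat h x p q j F * mat h x p q j' F' = mat h x p q (j + j') (sh h j' F * F') := by
  ext t' t
  simp only [Matrix.mul_apply, mat, ContinuousMap.mul_apply, sh_apply, zpow_apply_add]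
  by_cases hF : F' ((h ^ (t : ℤ)) x) = 0
  · simp [hF]
  · have := h2.block hp hq t.2 hF
    rw [Finset.sum_eq_single ⟨t + j', this⟩]
    · simp only [if_true, add_comm j' (t : ℤ)]
      by_cases e : (t' : ℤ) = t + j' + j
      · rw [if_pos e, if_pos (by omega)]
      · rw [if_neg e, if_neg (by omega), zero_mul]
    · intro b _ hb
      rw [if_neg (c := (b : ℤ) = t + j') (fun e => hb (Subtype.ext e)), mul_zero]
    · simp

lemma Cov.prod_mon (hc : Cov h φ u) {K : Set X} : ∀ (L : List (ℤ × C(X, ℂ)))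
    (_ : ∀ m ∈ L, Adm h K m.1 m.2), ∃ F, Adm h K (L.map Prod.fst).sum F ∧
      (L.map fun m => U u m.1 * φ m.2).prod = U u (L.map Prod.fst).sum * φ F ∧
      ∀ x p q, (h ^ p) x ∈ K → (h ^ q) x ∈ K →
        (L.map fun m => mat h x p q m.1 m.2).prod = mat h x p q (L.map Prod.fst).sum F
  | [], _ => ⟨1, Adm.zero K 1, by simp, fun x p q _ _ => by
      ext t' t
      simp only [List.map_nil, List.prod_nil, List.sum_nil, mat, Matrix.one_apply, add_zero,
        ContinuousMap.one_apply, Subtype.ext_iff]⟩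
  | m :: L, hL => by
    obtain ⟨F, h1, h2, h3⟩ := hc.prod_mon L fun m hm => hL m (by simp [hm])
    refine ⟨sh h (L.map Prod.fst).sum m.2 * F, (hL m (by simp)).mul h1, ?_,
      fun x p q hp hq => ?_⟩
    · simp only [List.map_cons, List.prod_cons, List.sum_cons, h2, hc.mon_mul]
    · simp only [List.map_cons, List.prod_cons, List.sum_cons, h3 x p q hp hq, mat_mul h1 hp hq]

lemma Cov.PI_mon (hc : Cov h φ u) {K : Set X} {M : ℕ} (hK : Syn h K M) :
    PI ((2 * M) ^ 2 + 1) (Mon h φ u K) := by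
  intro a ha
  choose j F hA hF using ha
  have hsum : ∀ σ : Equiv.Perm (Fin ((2 * M) ^ 2 + 1)),
      ((List.ofFn fun i => (j (σ i), F (σ i))).map Prod.fst).sum = ∑ i, j i := by
    intro σ
    rw [List.map_ofFn, List.sum_ofFn]
    exact Equiv.sum_comp σ j
  have h1 := fun σ : Equiv.Perm (Fin ((2 * M) ^ 2 + 1)) =>
    hc.prod_mon (K := K) (List.ofFn fun i => (j (σ i), F (σ i))) (fun m hm => by
      obtain ⟨i, rfl⟩ := List.mem_ofFn.mp hm
      exact hA _)
  simp only [hsum] at h1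
  simp only [List.map_ofFn] at h1
  choose G hG1 hG2 hG3 using h1
  have h2 : std _ A a = U u (∑ i, j i) * φ (∑ σ, ((Equiv.Perm.sign σ : ℤˣ) : ℤ) • G σ) := by
    rw [std_apply, map_sum, Finset.mul_sum]
    refine Finset.sum_congr rfl fun σ _ => ?_
    rw [map_zsmul, mul_smul_comm, ← hG2, Units.smul_def]
    simp only [hF]
    rfl
  have h3 : (∑ σ, ((Equiv.Perm.sign σ : ℤˣ) : ℤ) • G σ) = 0 := by
    ext x
    obtain ⟨q, hq0, hqM, hq⟩ := hK x
    obtain ⟨r, hr0, hrM, hr⟩ := hK ((h ^ (-(M : ℤ))) x)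
    rw [zpow_apply_add] at hr
    have h0 : (0 : ℤ) ∈ Finset.Ioc (r + -(M : ℤ)) q := by simp only [Finset.mem_Ioc]; omega
    simp only [ContinuousMap.sum_apply, ContinuousMap.smul_apply, ContinuousMap.zero_apply]
    by_cases hJ : (∑ i, j i) ∈ Finset.Ioc (r + -(M : ℤ)) q
    · have h4 := PI.of_finrank (k := (2 * M) ^ 2 + 1)
        (R := Matrix (Finset.Ioc (r + -(M : ℤ)) q) (Finset.Ioc (r + -(M : ℤ)) q) ℂ) (by
          rw [Module.finrank_matrix]
          simp only [Fintype.card_coe, Int.card_Ioc, Module.finrank_self, mul_one]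
          have : (q - (r + -(M : ℤ))).toNat ≤ 2 * M := by omega
          nlinarith) (fun i => mat h x _ q (j i) (F i)) (fun _ => trivial)
      rw [std_apply] at h4
      have h5 := congrFun (congrFun h4 ⟨_, hJ⟩) ⟨0, h0⟩
      rw [Matrix.sum_apply] at h5
      refine Eq.trans (Finset.sum_congr rfl fun σ _ => ?_) h5
      have h6 := hG3 σ x _ q hr hq
      rw [Units.smul_def, Matrix.smul_apply]
      congr 1
      have h7 := congrFun (congrFun h6 ⟨_, hJ⟩) ⟨0, h0⟩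
      refine Eq.trans ?_ h7.symm
      simp [mat]
    · refine Finset.sum_eq_zero fun σ _ => ?_
      have : G σ x = 0 := by
        by_contra h4
        have := (hG1 σ).block hr hq h0 (by simpa using h4)
        exact hJ (by simpa using this)
      simp [this]
  rw [h2, h3, map_zero, mul_zero]

/-- span of a set closed under products and adjoints -/
def spanStar (S : Set A) (h1 : (1 : A) ∈ S) (hm : ∀ a ∈ S, ∀ b ∈ S, a * b ∈ S)
    (hs : ∀ a ∈ S, star a ∈ S) : StarSubalgebra ℂ A where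
  carrier := Submodule.span ℂ S
  mul_mem' := fun {a b} ha hb => by
    have := Submodule.mul_mem_mul ha hb
    rw [Submodule.span_mul_span] at this
    refine Submodule.span_mono ?_ this
    rintro _ ⟨a, ha, b, hb, rfl⟩
    exact hm a ha b hb
  add_mem' := fun ha hb => Submodule.add_mem _ ha hb
  algebraMap_mem' := fun r => by
    rw [Algebra.algebraMap_eq_smul_one]
    exact Submodule.smul_mem _ _ (Submodule.subset_span h1)
  star_mem' := fun {a} ha => by
    induction ha using Submodule.span_induction with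
    | mem x hx => exact Submodule.subset_span (hs x hx)
    | zero => simp
    | add x y _ _ hx hy => rw [star_add]; exact Submodule.add_mem _ hx hy
    | smul c x _ hx => rw [star_smul]; exact Submodule.smul_mem _ _ hx

/-- the orbit-breaking algebra -/
def Blk (hc : Cov h φ u) (K : Set X) : StarSubalgebra ℂ A :=
  spanStar (Mon h φ u K) ⟨0, 1, Adm.zero K 1, by simp⟩
    (by rintro _ ⟨j, F, h1, rfl⟩ _ ⟨j', F', h2, rfl⟩; exact ⟨_, _, h1.mul h2, hc.mon_mul ..⟩)
    (by rintro _ ⟨j, F, h1, rfl⟩; exact ⟨_, _, h1.star, hc.mon_star ..⟩)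

lemma Cov.PI_Blk (hc : Cov h φ u) {K : Set X} {M : ℕ} (hK : Syn h K M) :
    PI ((2 * M) ^ 2 + 1) (Blk hc K : Set A) := (hc.PI_mon hK).span

lemma Cov.phi_mem_Blk (hc : Cov h φ u) (K : Set X) (F : C(X, ℂ)) : φ F ∈ Blk hc K :=
  Submodule.subset_span ⟨0, F, Adm.zero K F, by simp⟩

lemma Cov.u_mul_mem_Blk (hc : Cov h φ u) {K : Set X} {F : C(X, ℂ)} (hF : ∀ x ∈ K, F x = 0) :
    (u : A) * φ F ∈ Blk hc K :=
  Submodule.subset_span ⟨1, F, Adm.one hF, by rw [U_one]⟩

/-- adjoining a commuting unitary keeps the identity -/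
lemma PI.adjoin_central {k : ℕ} {B : StarSubalgebra ℂ A} (hB : PI k (B : Set A)) {Z : A}
    (hZ : Z ∈ unitary A) (hc : ∀ b ∈ B, Commute b Z) :
    ∃ D : StarSubalgebra ℂ A, PI k (D : Set A) ∧ B ≤ D ∧ Z ∈ D := by
  let G : Set A := range (U ⟨Z, hZ⟩)
  have hG : ∀ g ∈ G, ∀ g' ∈ G, Commute g g' := by
    rintro _ ⟨m, rfl⟩ _ ⟨n, rfl⟩
    rw [Commute, SemiconjBy, ← U_add, ← U_add, add_comm]
  have hBG : ∀ b ∈ B, ∀ g ∈ G, Commute b g := by
    rintro b hb _ ⟨n, rfl⟩
    obtain ⟨m, rfl | rfl⟩ := n.eq_nat_or_neg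
    · rw [U_nat]; exact (hc b hb).pow_right m
    · rw [U_neg_nat]
      refine Commute.pow_right ?_ m
      have := (hc _ (star_mem hb)).star_star
      simpa using this
  refine ⟨spanStar {x | ∃ b ∈ B, ∃ g ∈ G, x = b * g} ⟨1, B.one_mem, 1, ⟨0, by simp⟩, by simp⟩
    ?_ ?_, (hB.central hBG hG).span, fun b hb => Submodule.subset_span
      ⟨b, hb, 1, ⟨0, by simp⟩, by simp⟩, Submodule.subset_span
      ⟨1, B.one_mem, Z, ⟨1, U_one _⟩, by simp⟩⟩
  · rintro _ ⟨b, hb, _, ⟨m, rfl⟩, rfl⟩ _ ⟨b', hb', _, ⟨n, rfl⟩, rfl⟩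
    refine ⟨b * b', B.mul_mem hb hb', _, ⟨m + n, rfl⟩, ?_⟩
    rw [U_add, mul_assoc, ← mul_assoc (U _ m), ← (hBG b' hb' _ ⟨m, rfl⟩).eq]
    simp only [mul_assoc]
  · rintro _ ⟨b, hb, _, ⟨m, rfl⟩, rfl⟩
    refine ⟨star b, star_mem hb, _, ⟨-m, rfl⟩, ?_⟩
    rw [star_mul, U_star, (hBG _ (star_mem hb) _ ⟨-m, rfl⟩).eq]

end Pool.Agent.Lib.MP_f09365_an
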