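import Pool.Agent.Lib.MP_f09365_an.Tower

namespace Pool.Agent.Lib.MP_f09365_an

open Filter Topology Set
open scoped Real

variable {X : Type*} [MetricSpace X] [CompactSpace X] {A : Type*} [CStarAlgebra A]
variable {h : X ≃ₜ X} {φ : C(X, ℂ) →⋆ₐ[ℂ] A} {u : unitary A}

lemma Cov.level (hc : Cov h φ u) (n : ℤ) (g e : C(X, ℂ)) (c : ℂ)
    (H : ∀ x, e x ≠ 0 → g ((h ^ n) x) = c) :
    φ g * U u n * φ e = c • (U u n * φ e) ∧ φ e * U u (-n) * φ g = c • (φ e * U u (-n)) := by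
  have key : sh h n g * e = c • e := by
    ext x
    by_cases hx : e x = 0
    · simp [hx]
    · simp [H x hx]
  constructor
  · rw [hc, mul_assoc, ← map_mul, key, map_smul, mul_smul_comm]
  · have := hc (-n) (sh h n g)
    rw [sh_sh, add_neg_cancel, sh_zero] at this
    rw [mul_assoc, ← this, ← mul_assoc, ← map_mul, mul_comm e, key, map_smul, smul_mul_assoc]

lemma Cov.level_pos (hc : Cov h φ u) (n : ℕ) (g e : C(X, ℂ)) (c : ℂ)
    (H : ∀ x, e x ≠ 0 → g ((h ^ (n : ℤ)) x) = c) :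
    φ g * (u : A) ^ n * φ e = c • ((u : A) ^ n * φ e) ∧
      φ e * star (u : A) ^ n * φ g = c • (φ e * star (u : A) ^ n) := by
  simpa only [U_nat, U_neg_nat] using hc.level n g e c H

lemma Cov.level_neg (hc : Cov h φ u) (n : ℕ) (g e : C(X, ℂ)) (c : ℂ)
    (H : ∀ x, e x ≠ 0 → g ((h ^ (-(n : ℤ))) x) = c) :
    φ g * star (u : A) ^ n * φ e = c • (star (u : A) ^ n * φ e) ∧
      φ e * (u : A) ^ n * φ g = c • (φ e * (u : A) ^ n) := by
  simpa only [neg_neg, U_nat, U_neg_nat] using hc.level (-n) g e c H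

lemma Cov.conj (hc : Cov h φ u) (s : C(X, ℂ)) :
    (u : A) * φ s * star (u : A) = φ (sh h (-1) s) := by
  have := hc 1 (sh h (-1) s)
  rw [sh_sh, neg_add_cancel, sh_zero, U_one] at this
  rw [← this, mul_assoc, Unitary.mul_star_self_of_mem u.2, mul_one]

/-- unitaries localised where all functions of `G` are constant -/
def Loc (φ : C(X, ℂ) →⋆ₐ[ℂ] A) (y : X) (G : Set C(X, ℂ)) (η : A) : Prop :=
  η ∈ unitary A ∧ ∀ g ∈ G, φ g * (η - 1) = g y • (η - 1) ∧ (η - 1) * φ g = g y • (η - 1)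

/-- finitely generated piece of the orbit-breaking algebra -/
def Pal (φ : C(X, ℂ) →⋆ₐ[ℂ] A) (u : A) (y : X) (G : Set C(X, ℂ)) : StarSubalgebra ℂ A :=
  StarAlgebra.adjoin ℂ (φ '' G ∪ {a | ∃ c ∈ G, c y = 0 ∧ a = u * φ c})

lemma sa_of {c : C(X, ℂ)} (φ : C(X, ℂ) →⋆ₐ[ℂ] A) (hc : star c = c) : IsSelfAdjoint (φ c) := by
  rw [IsSelfAdjoint, ← map_star, hc]

lemma her_zz (φ : C(X, ℂ) →⋆ₐ[ℂ] A) (u : A) (M : ℕ) {c s e : C(X, ℂ)}
    (H : ∀ x, e x ≠ 1 → c x = 1 ∧ s x = 0) : Her (φ e) (zz u (φ c) (φ s) M - 1) := by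
  have h1 : e * (c - 1) = c - 1 := by
    ext x
    by_cases hx : e x = 1
    · simp [hx]
    · simp [(H x hx).1]
  have h2 : e * s = s := by
    ext x
    by_cases hx : e x = 1
    · simp [hx]
    · simp [(H x hx).2]
  refine zz_sub_one_her M ?_ ?_ ?_ ?_
  · rw [← map_one φ, ← map_sub, ← map_mul, h1]
  · rw [← map_one φ, ← map_sub, ← map_mul, mul_comm, h1]
  · rw [← map_mul, h2]
  · rw [← map_mul, mul_comm, h2]

theorem stage [Infinite X] (hc : Cov h φ u) (hmin : ∀ x, Dense (range fun n : ℤ => (h ^ n) x))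
    (y : X) {G : Set C(X, ℂ)} (hG : G.Finite) (hGL : ∀ g ∈ G, LC h y g) {δ : ℝ} (hδ : 0 < δ) :
    ∃ (W w : A) (G' : Set C(X, ℂ)) (k : ℕ), W ∈ unitary A ∧ (∀ g ∈ G, Commute W (φ g)) ∧
      ‖W * (u * w) * star W - u‖ ≤ δ ∧ Loc φ y G w ∧ G'.Finite ∧ G ⊆ G' ∧ (∀ g ∈ G', LC h y g) ∧
      (u : A) * w * star (u : A) ∈ Pal φ u y G' ∧
      ∀ η, Loc φ y G' η → PI k (StarAlgebra.adjoin ℂ (φ '' G ∪ {(u : A) * w * η}) : Set A) := by
  obtain ⟨N, hN0, hNδ⟩ : ∃ N : ℕ, 0 < N ∧ π / N ≤ δ := by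
    obtain ⟨N, hN⟩ := exists_nat_gt (π / δ)
    have h1 : 0 < π / δ := by positivity
    have h2 : (0 : ℝ) < N := h1.trans hN
    refine ⟨N, by exact_mod_cast h2, ?_⟩
    rw [div_le_iff₀ h2]
    rw [div_lt_iff₀ hδ] at hN
    linarith
  -- the first radius
  obtain ⟨r, hr0, hr1, hr2⟩ : ∃ r > 0, (∀ x, dist x y < r → ∀ g ∈ G, ∀ j : ℕ, j ≤ N + 1 →
      g ((h ^ (j : ℤ)) x) = g ((h ^ (j : ℤ)) y)) ∧
      (∀ x, dist x y < r → ∀ j : ℕ, 1 ≤ j → j ≤ N → r ≤ dist ((h ^ (j : ℤ)) x) y) := by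
    have e1 : ∀ᶠ x in 𝓝 y, ∀ g ∈ G, ∀ j ∈ Finset.range (N + 2),
        g ((h ^ (j : ℤ)) x) = g ((h ^ (j : ℤ)) y) :=
      (hG.eventually_all).mpr fun g hg => (Finset.eventually_all _).mpr fun j _ => (hGL g hg).at j
    have e2 : ∀ᶠ p : ℝ × X in 𝓝 (0, y), ∀ j ∈ Finset.Icc 1 N,
        p.1 < dist ((h ^ ((j : ℕ) : ℤ)) p.2) y := by
      refine (Finset.eventually_all _).mpr fun j hj => ?_
      refine ContinuousAt.eventually_lt (by fun_prop) (by fun_prop) ?_
      simp only [Finset.mem_Icc] at hj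
      exact dist_pos.mpr (not_periodic h hmin y (by omega))
    obtain ⟨a, ha, h1⟩ := Metric.eventually_nhds_iff.mp e1
    obtain ⟨b, hb, h2⟩ := Metric.eventually_nhds_iff.mp e2
    refine ⟨min a (b / 2), by positivity, fun x hx g hg j hj => h1 (hx.trans_le (min_le_left _ _))
      g hg j (by simp; omega), fun x hx j hj1 hj2 => ?_⟩
    have h3 := min_le_right a (b / 2)
    have := @h2 (b / 2, x) (by
      rw [Prod.dist_eq, max_lt_iff]
      refine ⟨?_, by linarith⟩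
      rw [Real.dist_eq, sub_zero, abs_of_pos (by linarith)]; linarith) j (by simp [hj1, hj2])
    linarith
  -- the clean return time
  have hex : ∃ J : ℕ, dist ((h ^ (-((J + 1 : ℕ) : ℤ))) y) y < r := by
    obtain ⟨M, hM⟩ := exists_syn h hmin y hr0
    obtain ⟨t, h1, h2, h3⟩ := hM ((h ^ (-(M : ℤ))) y)
    rw [zpow_apply_add] at h3
    refine ⟨(M - t - 1).toNat, ?_⟩
    have : -(((M - t - 1).toNat + 1 : ℕ) : ℤ) = t + -(M : ℤ) := by push_cast; omega
    rw [this]; exact h3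
  classical
  set J := Nat.find hex with hJ
  have hJ1 := Nat.find_spec hex
  have hJ2 : ∀ i : ℕ, 1 ≤ i → i ≤ J → r ≤ dist ((h ^ (-(i : ℤ))) y) y := by
    intro i h1 h2
    have := Nat.find_min hex (m := i - 1) (by omega)
    rw [show i - 1 + 1 = i by omega] at this
    exact not_lt.mp this
  rw [← hJ] at hJ1
  set r0 := dist ((h ^ (-((J + 1 : ℕ) : ℤ))) y) y with hr0d
  have hr00 : 0 ≤ r0 := dist_nonneg
  obtain ⟨c, s, hcs, hss, hcs1, hcL, hsL, hpos, hin, hout⟩ :=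
    exists_pair h y (show (2 * r0 + r) / 3 < (r0 + 2 * r) / 3 by linarith)
  obtain ⟨e0, he0s, -, he0in, he0out⟩ := exists_cbump h y (show (r0 + 2 * r) / 3 < r by linarith)
  -- the second radius
  obtain ⟨t, ht0, ht1, ht2⟩ : ∃ t > 0, t ≤ (2 * r0 + r) / 3 ∧ ∀ x, dist x y < t →
      ∀ g ∈ insert c (insert s G), ∀ i : ℕ, i ≤ J + 1 →
        g ((h ^ (-(i : ℤ))) x) = g ((h ^ (-(i : ℤ))) y) := by
    have e1 : ∀ᶠ x in 𝓝 y, ∀ g ∈ insert c (insert s G), ∀ i ∈ Finset.range (J + 2),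
        g ((h ^ (-(i : ℤ))) x) = g ((h ^ (-(i : ℤ))) y) := by
      refine (((hG.insert s).insert c).eventually_all).mpr fun g hg =>
        (Finset.eventually_all _).mpr fun j _ => LC.at ?_ _
      rcases hg with rfl | rfl | hg
      exacts [hcL, hsL, hGL g hg]
    obtain ⟨a, ha, h1⟩ := Metric.eventually_nhds_iff.mp e1
    exact ⟨min a ((2 * r0 + r) / 3), lt_min ha (by linarith), min_le_right _ _,
      fun x hx g hg i hi => h1 (hx.trans_le (min_le_left _ _)) g hg i (by simp; omega)⟩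
  obtain ⟨e, hes, heL, hein, heout⟩ := exists_cbump h y (show 2 * t / 3 < t by linarith)
  obtain ⟨c', s', hcs', hss', hcs1', hcL', hsL', hpos', hin', hout'⟩ :=
    exists_pair h y (show t / 3 < 2 * t / 3 by linarith)
  obtain ⟨M, hM⟩ := exists_syn h hmin y (show 0 < t / 3 by linarith)
  have hcK : ∀ x ∈ Metric.ball y (t / 3), c x = 0 := fun x hx =>
    (hin x (by have := Metric.mem_ball.mp hx; linarith)).1
  have hcK' : ∀ x ∈ Metric.ball y (t / 3), c' x = 0 := fun x hx =>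
    (hin' x (Metric.mem_ball.mp hx).le).1
  have hne : ∀ x, (2 * (1 + c * c' + s * s') : C(X, ℂ)) x ≠ 0 := by
    intro x
    obtain ⟨p, q, hp, hq, h1, h2⟩ := hpos x
    obtain ⟨p', q', hp', hq', h1', h2'⟩ := hpos' x
    have : (2 * (1 + c * c' + s * s') : C(X, ℂ)) x = ((2 * (1 + p * p' + q * q') : ℝ) : ℂ) := by
      have h3 : (2 : C(X, ℂ)) x = 2 := rfl
      simp [h1, h2, h1', h2', h3]
    rw [this]
    exact Complex.ofReal_ne_zero.mpr (by positivity)
  let gi : C(X, ℂ) := ⟨fun x => ((2 * (1 + c * c' + s * s') : C(X, ℂ)) x)⁻¹,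
    (ContinuousMap.continuous _).inv₀ hne⟩
  have hgi : gi * (2 * (1 + c * c' + s * s')) = 1 := by
    ext x; exact inv_mul_cancel₀ (hne x)
  have n1 := hc.nil hM hcK
  have n2 := hc.nil hM hcK'
  have n3 := hc.nil hM (F := 2 * gi * (c + c')) (fun x hx => by simp [hcK x hx, hcK' x hx])
  have hzu : ∀ {c s : C(X, ℂ)}, star c = c → star s = s → c * c + s * s = 1 →
      ((u : A) * φ c) ^ (M + 1) = 0 ∧ (star (u : A) * φ c) ^ (M + 1) = 0 →
      zz (u : A) (φ c) (φ s) (M + 1) ∈ unitary A := fun h1 h2 h3 h4 =>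
    zz_mem_unitary u.2 (sa_of φ h1) (sa_of φ h2) (by rw [← map_mul, ← map_mul, mul_comm])
      (by rw [← map_mul, ← map_mul, ← map_add, h3, map_one]) h4.1 h4.2
  have hz := hzu hcs hss hcs1 n1
  have hz' := hzu hcs' hss' hcs1' n2
  have hunit := zz_add_isUnit (φ : C(X, ℂ) →+* A) u.2 c s c' s' gi (sa_of φ hcs) (sa_of φ hss)
    (sa_of φ hcs') (sa_of φ hss') hcs1 hcs1' hgi n1.1 n2.1 n1.2 n2.2 n3.1 n3.2
  simp only [RingHom.coe_coe] at hunit
  set z := zz (u : A) (φ c) (φ s) (M + 1) with hzd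
  set z' := zz (u : A) (φ c') (φ s') (M + 1) with hzd'
  have hwu : star z * z' ∈ unitary A := mul_mem (Unitary.star_mem hz) hz'
  have hw1 : IsUnit (1 + star z * z') := by
    have : 1 + star z * z' = star z * (z + z') := by
      rw [mul_add, Unitary.star_mul_self_of_mem hz]
    rw [this]
    exact IsUnit.mul ⟨⟨star z, z, Unitary.star_mul_self_of_mem hz,
      Unitary.mul_star_self_of_mem hz⟩, rfl⟩ hunit
  have he0n : ∀ x, e0 x ≠ 1 → (r0 + 2 * r) / 3 ≤ dist x y := fun x hx =>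
    le_of_lt (not_le.mp fun h1 => hx (he0in x h1))
  have hH : Her (φ e0) (star z * z' - 1) := by
    refine Her.mul_sub_one ?_ (her_zz φ u _ fun x hx => hout' x (by have := he0n x hx; linarith))
    simpa using (her_zz φ u (M + 1) fun x hx => hout x (he0n x hx)).star (sa_of φ he0s)
  have he0r : ∀ x, e0 x ≠ 0 → dist x y < r := fun x hx => not_le.mp fun h1 => hx (he0out x h1)
  obtain ⟨W, hWu, hWn, hWc⟩ := berg u.2 (sa_of φ he0s) hN0 (fun j h1 h2 => by
    simpa using (hc.level_pos j e0 e0 0 fun x hx => he0out _ (hr2 x (he0r x hx) j h1 h2)).1)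
    hwu hw1 hH
  have her : ∀ x, e x ≠ 0 → dist x y < t := fun x hx => not_le.mp fun h1 => hx (heout x h1)
  have hcy : c y = 0 := hcK y (Metric.mem_ball_self (by linarith))
  have hcy' : c' y = 0 := hcK' y (Metric.mem_ball_self (by linarith))
  refine ⟨W, star z * z', G ∪ {c, s, sh h (-1) s, c', s', sh h (-1) s', e}, (2 * M) ^ 2 + 1, hWu,
    fun g hg => hWc _ fun j _ h2 => ⟨_, hc.level_pos j g e0 _
      fun x hx => hr1 x (he0r x hx) g hg j h2⟩, hWn.trans hNδ, ⟨hwu, fun g hg => ?_⟩,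
    hG.union (toFinite _), subset_union_left, ?_, ?_, fun η hη => ?_⟩
  · have := hc.level_pos 0 g e0 (g y) fun x hx => by simpa using hr1 x (he0r x hx) g hg 0 (by omega)
    simp only [pow_zero, mul_one, one_mul] at this
    constructor
    · rw [← hH.1, ← mul_assoc, this.1, smul_mul_assoc]
    · rw [← hH.2, mul_assoc, this.2, mul_smul_comm]
  · rintro g (hg | rfl | rfl | rfl | rfl | rfl | rfl | rfl)
    exacts [hGL g hg, hcL, hsL, hsL.shift _, hcL', hsL', hsL'.shift _, heL]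
  · have : (u : A) * (star z * z') * star (u : A) = (u * star z) * star (u * star z') := by
      simp [mul_assoc]
    rw [this]
    refine mul_mem (v_mem (sa_of φ hcs) (sa_of φ hss) _ _ ?_ ?_ ?_ (hc.conj s))
      (star_mem (v_mem (sa_of φ hcs') (sa_of φ hss') _ _ ?_ ?_ ?_ (hc.conj s')))
    · exact StarAlgebra.subset_adjoin _ _ (Or.inr ⟨c, by simp, hcy, rfl⟩)
    · exact StarAlgebra.subset_adjoin _ _ (Or.inl ⟨s, by simp, rfl⟩)
    · exact StarAlgebra.subset_adjoin _ _ (Or.inl ⟨_, by simp, rfl⟩)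
    · exact StarAlgebra.subset_adjoin _ _ (Or.inr ⟨c', by simp, hcy', rfl⟩)
    · exact StarAlgebra.subset_adjoin _ _ (Or.inl ⟨s', by simp, rfl⟩)
    · exact StarAlgebra.subset_adjoin _ _ (Or.inl ⟨_, by simp, rfl⟩)
  · have hl : ∀ g ∈ insert c (insert s G), ∀ i : ℕ, i ≤ J + 1 → _ := fun g hg i hi =>
      hc.level_neg i g e _ fun x hx => ht2 x (her x hx) g hg i hi
    have hy := hin y (by simp; linarith)
    have hJv := hin ((h ^ (-((J + 1 : ℕ) : ℤ))) y) (by rw [← hr0d]; linarith)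
    have hiv := fun (i : ℕ) (h1 : 1 ≤ i) (h2 : i ≤ J) =>
      hout ((h ^ (-(i : ℤ))) y) (by have := hJ2 i h1 h2; linarith)
    have hηe : Her (φ e) (η - 1) := by
      have := hη.2 e (by simp)
      rw [hein y (by simp; linarith), one_smul] at this
      exact this
    have := tower_PI (N := J) u.2 (sa_of φ hcs) (sa_of φ hss) (sa_of φ hes) hz n1.2
      (by simpa [hy.1] using (hl c (by simp) 0 (by omega)).1)
      (by simpa [hy.2] using (hl s (by simp) 0 (by omega)).1)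
      (fun i h1 h2 => by
        have := (hl c (by simp) i (by omega)).1; rwa [(hiv i h1 h2).1, one_smul] at this)
      (fun i h1 h2 => by
        have := (hl s (by simp) i (by omega)).1; rwa [(hiv i h1 h2).2, zero_smul] at this)
      (by have := (hl c (by simp) (J + 1) le_rfl).1; rwa [hJv.1, zero_smul] at this)
      (by have := (hl s (by simp) (J + 1) le_rfl).1; rwa [hJv.2, one_smul] at this)
      (hc.PI_Blk hM) (hc.phi_mem_Blk _ s)
      (v_mem (sa_of φ hcs) (sa_of φ hss) _ _ (hc.u_mul_mem_Blk hcK) (hc.phi_mem_Blk _ s)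
        (hc.phi_mem_Blk _ _) (hc.conj s)) (G := φ '' G)
      (by rintro _ ⟨g, _, rfl⟩; exact hc.phi_mem_Blk _ g)
      (by rintro _ ⟨g, hg, rfl⟩ i hi; exact ⟨_, hl g (by simp [hg]) i (by omega)⟩)
      (mul_mem hz' hη.1) (Her.mul_sub_one (her_zz φ u _ fun x hx => hout' x
        (le_of_lt (not_le.mp fun h1 => hx (hein x h1)))) hηe)
    simpa only [mul_assoc] using this

end Pool.Agent.Lib.MP_f09365_an
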