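import Pool.Agent.Lib.MP_f09365_an.Stage

namespace Pool.Agent.Lib.MP_f09365_an

open Filter Topology Set
open scoped CStarAlgebra

variable {X : Type*} [MetricSpace X] [CompactSpace X] {A : Type*} [CStarAlgebra A]
variable {h : X ≃ₜ X} {φ : C(X, ℂ) →⋆ₐ[ℂ] A} {u : unitary A}

/-- union of a directed family -/
def dirU {ι : Type*} [Nonempty ι] (K : ι → StarSubalgebra ℂ A) (hK : Directed (· ≤ ·) K) :
    StarSubalgebra ℂ A where
  carrier := ⋃ i, K i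
  mul_mem' := fun {a b} ha hb => by
    obtain ⟨i, hi⟩ := mem_iUnion.mp ha
    obtain ⟨j, hj⟩ := mem_iUnion.mp hb
    obtain ⟨k, h1, h2⟩ := hK i j
    exact mem_iUnion.mpr ⟨k, mul_mem (h1 hi) (h2 hj)⟩
  add_mem' := fun {a b} ha hb => by
    obtain ⟨i, hi⟩ := mem_iUnion.mp ha
    obtain ⟨j, hj⟩ := mem_iUnion.mp hb
    obtain ⟨k, h1, h2⟩ := hK i j
    exact mem_iUnion.mpr ⟨k, add_mem (h1 hi) (h2 hj)⟩
  algebraMap_mem' := fun r => mem_iUnion.mpr ⟨Classical.arbitrary ι, (K _).algebraMap_mem r⟩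
  star_mem' := fun {a} ha => by
    obtain ⟨i, hi⟩ := mem_iUnion.mp ha
    exact mem_iUnion.mpr ⟨i, star_mem hi⟩

lemma adjoin_move {ι : Type*} (l : Filter ι) (S : Set A) (w : ι → A) {w0 : A}
    (hw : Tendsto w l (𝓝 w0)) {p : A} (hp : p ∈ StarAlgebra.adjoin ℂ (S ∪ {w0})) :
    ∃ P : ι → A, (∀ i, P i ∈ StarAlgebra.adjoin ℂ (S ∪ {w i})) ∧ Tendsto P l (𝓝 p) := by
  induction hp using StarAlgebra.adjoin_induction with
  | mem x hx =>
    rcases hx with hx | rfl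
    · exact ⟨fun _ => x, fun i => StarAlgebra.subset_adjoin _ _ (Or.inl hx), tendsto_const_nhds⟩
    · exact ⟨w, fun i => StarAlgebra.subset_adjoin _ _ (Or.inr rfl), hw⟩
  | algebraMap r => exact ⟨fun _ => _, fun i => StarSubalgebra.algebraMap_mem _ r,
      tendsto_const_nhds⟩
  | add x y _ _ hx hy =>
    obtain ⟨P, h1, h2⟩ := hx
    obtain ⟨Q, h3, h4⟩ := hy
    exact ⟨fun i => P i + Q i, fun i => add_mem (h1 i) (h3 i), h2.add h4⟩
  | mul x y _ _ hx hy =>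
    obtain ⟨P, h1, h2⟩ := hx
    obtain ⟨Q, h3, h4⟩ := hy
    exact ⟨fun i => P i * Q i, fun i => mul_mem (h1 i) (h3 i), h2.mul h4⟩
  | star x _ hx =>
    obtain ⟨P, h1, h2⟩ := hx
    exact ⟨fun i => star (P i), fun i => star_mem (h1 i), h2.star⟩

lemma conj_mul {V : A} (hV : V ∈ unitary A) (a b : A) :
    V * (a * b) * star V = V * a * star V * (V * b * star V) := by
  simp only [mul_assoc]
  rw [← mul_assoc (star V) V, Unitary.star_mul_self_of_mem hV, one_mul]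

lemma conj_commute {V a : A} (hV : V ∈ unitary A) (h : Commute V a) : V * a * star V = a := by
  rw [h.eq, mul_assoc, Unitary.mul_star_self_of_mem hV, mul_one]

lemma norm_conj {V : A} (hV : V ∈ unitary A) (a : A) : ‖V * a * star V‖ = ‖a‖ := by
  rw [CStarRing.norm_mul_mem_unitary _ (Unitary.star_mem hV), CStarRing.norm_mem_unitary_mul _ hV]

/-- pairs (element, limit of its conjugates) -/
def limPairs {ι : Type*} (l : Filter ι) (V : ι → A) (hV : ∀ i, V i ∈ unitary A) :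
    StarSubalgebra ℂ (A × A) where
  carrier := {p | Tendsto (fun i => V i * p.1 * star (V i)) l (𝓝 p.2)}
  mul_mem' := fun {a b} ha hb => by
    simp only [mem_setOf_eq, Prod.fst_mul, Prod.snd_mul, conj_mul (hV _)]
    exact Tendsto.mul ha hb
  add_mem' := fun {a b} ha hb => by
    simp only [mem_setOf_eq, Prod.fst_add, Prod.snd_add, mul_add, add_mul]
    exact Tendsto.add ha hb
  algebraMap_mem' := fun r => by
    simp only [mem_setOf_eq, Prod.algebraMap_apply]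
    simp only [conj_commute (hV _) (Algebra.commute_algebraMap_right r _)]
    exact tendsto_const_nhds
  star_mem' := fun {a} ha => by
    simpa [mul_assoc] using Tendsto.star ha

lemma conj_lim {ι : Type*} (l : Filter ι) (V : ι → A) (hV : ∀ i, V i ∈ unitary A) (S : Set A)
    (Q : StarSubalgebra ℂ (A × A))
    (hS : ∀ s ∈ S, ∃ b, (s, b) ∈ Q ∧ Tendsto (fun i => V i * s * star (V i)) l (𝓝 b))
    {T : A} (hT : T ∈ StarAlgebra.adjoin ℂ S) :
    ∃ b, (T, b) ∈ Q ∧ Tendsto (fun i => V i * T * star (V i)) l (𝓝 b) := by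
  have : StarAlgebra.adjoin ℂ S ≤ (Q ⊓ limPairs l V hV).map (StarAlgHom.fst ℂ A A) := by
    refine StarAlgebra.adjoin_le fun s hs => ?_
    obtain ⟨b, h1, h2⟩ := hS s hs
    exact ⟨(s, b), ⟨h1, h2⟩, rfl⟩
  obtain ⟨⟨T', b⟩, ⟨h1, h2⟩, rfl⟩ := this hT
  exact ⟨b, h1, h2⟩

lemma conj_lim_self {ι : Type*} (l : Filter ι) (V : ι → A) (hV : ∀ i, V i ∈ unitary A) (S : Set A)
    (hS : ∀ s ∈ S, Tendsto (fun i => V i * s * star (V i)) l (𝓝 s))
    {T : A} (hT : T ∈ StarAlgebra.adjoin ℂ S) :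
    Tendsto (fun i => V i * T * star (V i)) l (𝓝 T) := by
  obtain ⟨b, ⟨a, h1⟩, h2⟩ := conj_lim l V hV S
    ((StarAlgHom.id ℂ A).prod (StarAlgHom.id ℂ A)).range (fun s hs => ⟨s, ⟨s, rfl⟩, hS s hs⟩) hT
  obtain ⟨rfl, rfl⟩ := Prod.mk.inj h1
  exact h2

lemma conj_lim_mem {ι : Type*} (l : Filter ι) (V : ι → A) (hV : ∀ i, V i ∈ unitary A) (S : Set A)
    (B : StarSubalgebra ℂ A)
    (hS : ∀ s ∈ S, ∃ b ∈ B, Tendsto (fun i => V i * s * star (V i)) l (𝓝 b))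
    {T : A} (hT : T ∈ StarAlgebra.adjoin ℂ S) :
    ∃ b ∈ B, Tendsto (fun i => V i * T * star (V i)) l (𝓝 b) :=
  conj_lim l V hV S (B.comap (StarAlgHom.snd ℂ A A)) hS hT

lemma conj_mem_adjoin {V : A} (hV : V ∈ unitary A) {S : Set A} {p : A}
    (hp : p ∈ StarAlgebra.adjoin ℂ S) :
    V * p * star V ∈ StarAlgebra.adjoin ℂ ((fun a => V * a * star V) '' S) := by
  have := StarAlgHom.map_adjoin (Unitary.conjStarAlgAut ℂ A ⟨V, hV⟩ : A →⋆ₐ[ℂ] A) S
  have h2 : V * p * star V ∈ (StarAlgebra.adjoin ℂ S).map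
    (Unitary.conjStarAlgAut ℂ A ⟨V, hV⟩ : A →⋆ₐ[ℂ] A) := ⟨p, hp, rfl⟩
  rw [this] at h2
  exact h2

lemma PI.conj {k : ℕ} {V : A} (hV : V ∈ unitary A) {S : Set A}
    (hS : PI k (StarAlgebra.adjoin ℂ S : Set A)) :
    PI k (StarAlgebra.adjoin ℂ ((fun a => V * a * star V) '' S) : Set A) := by
  have := StarAlgHom.map_adjoin (Unitary.conjStarAlgAut ℂ A ⟨V, hV⟩ : A →⋆ₐ[ℂ] A) S
  intro a ha
  have h2 : ∀ i, a i ∈ (StarAlgebra.adjoin ℂ S).map
      (Unitary.conjStarAlgAut ℂ A ⟨V, hV⟩ : A →⋆ₐ[ℂ] A) := fun i => by rw [this]; exact ha i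
  choose b hb hab using h2
  have e1 : a = fun i => (Unitary.conjStarAlgAut ℂ A ⟨V, hV⟩ : A →⋆ₐ[ℂ] A).toRingHom (b i) :=
    funext fun i => (hab i).symm
  rw [e1, ← map_std, hS b hb, map_zero]

lemma Loc.mono {y : X} {G H : Set C(X, ℂ)} {η : A} (hη : Loc φ y H η) (hGH : G ⊆ H) :
    Loc φ y G η := ⟨hη.1, fun g hg => hη.2 g (hGH hg)⟩

lemma Loc.one (y : X) (G : Set C(X, ℂ)) : Loc φ y G 1 := ⟨one_mem _, fun g _ => by simp⟩

lemma Loc.mul {y : X} {G : Set C(X, ℂ)} {a b : A} (ha : Loc φ y G a) (hb : Loc φ y G b) :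
    Loc φ y G (a * b) := by
  refine ⟨mul_mem ha.1 hb.1, fun g hg => ⟨?_, ?_⟩⟩
  · have : a * b - 1 = (a - 1) * b + (b - 1) := by noncomm_ring
    rw [this, mul_add, ← mul_assoc, (ha.2 g hg).1, (hb.2 g hg).1, smul_add, smul_mul_assoc]
  · have : a * b - 1 = a * (b - 1) + (a - 1) := by noncomm_ring
    rw [this, add_mul, mul_assoc, (ha.2 g hg).2, (hb.2 g hg).2, smul_add, mul_smul_comm]

lemma Loc.mul_eq {y : X} {G : Set C(X, ℂ)} {a : A} (ha : Loc φ y G a) {c : C(X, ℂ)} (hc : c ∈ G)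
    (h0 : c y = 0) : a * φ c = φ c := by
  have := (ha.2 c hc).2
  rwa [h0, zero_smul, sub_mul, one_mul, sub_eq_zero] at this

lemma Pal_mono (φ : C(X, ℂ) →⋆ₐ[ℂ] A) (u : A) (y : X) {G H : Set C(X, ℂ)} (hGH : G ⊆ H) :
    Pal φ u y G ≤ Pal φ u y H := by
  refine StarAlgebra.adjoin_mono (union_subset_union (image_mono hGH) ?_)
  rintro _ ⟨c, hc, h0, rfl⟩
  exact ⟨c, hGH hc, h0, rfl⟩

lemma fin_approx (h : X ≃ₜ X) (y : X)
    (hgen : (StarAlgebra.adjoin ℂ (range φ ∪ {(u : A)})).topologicalClosure = ⊤) (a : A) {ε : ℝ}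
    (hε : 0 < ε) : ∃ H : Set C(X, ℂ), H.Finite ∧ (∀ g ∈ H, LC h y g) ∧
      ∃ p ∈ StarAlgebra.adjoin ℂ (φ '' H ∪ {(u : A)}), ‖p - a‖ < ε := by
  haveI : Nonempty {H : Set C(X, ℂ) // H.Finite ∧ ∀ g ∈ H, LC h y g} :=
    ⟨⟨∅, finite_empty, by simp⟩⟩
  let D := dirU (fun H : {H : Set C(X, ℂ) // H.Finite ∧ ∀ g ∈ H, LC h y g} =>
    StarAlgebra.adjoin ℂ (φ '' H.1 ∪ {(u : A)})) (fun H H' =>
      ⟨⟨H.1 ∪ H'.1, H.2.1.union H'.2.1, fun g hg => hg.elim (H.2.2 g) (H'.2.2 g)⟩,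
        StarAlgebra.adjoin_mono (union_subset_union_left _ (image_mono subset_union_left)),
        StarAlgebra.adjoin_mono (union_subset_union_left _ (image_mono subset_union_right))⟩)
  have h1 : StarAlgebra.adjoin ℂ (range φ ∪ {(u : A)}) ≤ D.topologicalClosure := by
    refine StarAlgebra.adjoin_le ?_
    rintro _ (⟨f, rfl⟩ | rfl)
    · have hf : f ∈ closure (LCalg h y : Set C(X, ℂ)) := by
        rw [← StarSubalgebra.topologicalClosure_coe, LCalg_dense]; trivial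
      refine MapsTo.closure (s := (LCalg h y : Set C(X, ℂ))) (t := (D : Set A)) (fun g hg => ?_)
        (map_continuous φ) hf
      exact mem_iUnion.mpr ⟨⟨{g}, finite_singleton g, by rintro _ rfl; exact hg⟩,
        StarAlgebra.subset_adjoin _ _ (Or.inl ⟨g, rfl, rfl⟩)⟩
    · exact D.le_topologicalClosure (mem_iUnion.mpr ⟨⟨∅, finite_empty, by simp⟩,
        StarAlgebra.subset_adjoin _ _ (Or.inr rfl)⟩)
  have h2 := StarSubalgebra.topologicalClosure_minimal h1 D.isClosed_topologicalClosure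
  rw [hgen] at h2
  obtain ⟨p, hp, hd⟩ := Metric.mem_closure_iff.mp (h2 (StarSubalgebra.mem_top (x := a))) ε hε
  obtain ⟨H, hH⟩ := mem_iUnion.mp hp
  exact ⟨H.1, H.2.1, H.2.2, p, hH, by rwa [← dist_eq_norm, dist_comm]⟩

/-- state of the recursion -/
structure St (X A : Type*) [TopologicalSpace X] where
  G : Set C(X, ℂ)
  V : A
  η : ℕ → A
  ε : ℝ

/-- data chosen in one step -/
structure Dt (X A : Type*) [TopologicalSpace X] where
  H : Set C(X, ℂ)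
  W : A
  w : A
  k : ℕ
  τ : ℝ

/-- invariant -/
def Inv (h : X ≃ₜ X) (φ : C(X, ℂ) →⋆ₐ[ℂ] A) (u : A) (y : X) (n : ℕ) (s : St X A) : Prop :=
  s.G.Finite ∧ (∀ g ∈ s.G, LC h y g) ∧ s.V ∈ unitary A ∧ 0 < s.ε ∧
    (∀ j, u * s.η j * star u ∈ Pal φ u y s.G) ∧ ∀ j, n ≤ j → s.η j = 1

/-- relation between consecutive states -/
structure Rel (φ : C(X, ℂ) →⋆ₐ[ℂ] A) (u : A) (y : X) (a : ℕ → A) (n : ℕ) (s s' : St X A)
    (d : Dt X A) : Prop where
  sub1 : s.G ⊆ d.H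
  sub2 : d.H ⊆ s'.G
  hV : s'.V = s.V * d.W
  hW : d.W ∈ unitary A
  comm : ∀ g ∈ d.H, Commute d.W (φ g)
  loc : Loc φ y d.H d.w
  eta : ∀ j ≤ n, s'.η j = s.η j * d.w
  pal : u * d.w * star u ∈ Pal φ u y s'.G
  pi : ∀ η, Loc φ y s'.G η → PI d.k (StarAlgebra.adjoin ℂ (φ '' d.H ∪ {u * d.w * η}) : Set A)
  eps1 : 2 * s'.ε ≤ s.ε
  eps2 : 2 * s'.ε ≤ d.τ
  inc : ∀ j ≤ n, ‖d.W * (u * s.η j * d.w) * star d.W - u * s.η j‖ ≤ s'.ε
  app : ∀ w, ‖w - u‖ ≤ d.τ → ∀ i ≤ n, ∃ p ∈ StarAlgebra.adjoin ℂ (φ '' d.H ∪ {w}),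
    ‖p - star s.V * a i * s.V‖ ≤ 1 / (n + 1)

theorem step [Infinite X] (hc : Cov h φ u) (hmin : ∀ x, Dense (range fun n : ℤ => (h ^ n) x))
    (hgen : (StarAlgebra.adjoin ℂ (range φ ∪ {(u : A)})).topologicalClosure = ⊤)
    (y : X) (a : ℕ → A) (n : ℕ) (s : St X A) (hs : Inv h φ u y n s) :
    ∃ s', Inv h φ u y (n + 1) s' ∧ ∃ d, Rel φ u y a n s s' d := by
  obtain ⟨hG, hGL, hV, hε, hP, h1⟩ := hs
  have hn : (0 : ℝ) < 1 / (n + 1) := by positivity
  choose H0 hH0 hH0L p hp hpa using fun i => fin_approx h y hgen (star s.V * a i * s.V) hn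
  set H := s.G ∪ ⋃ i ∈ Finset.range (n + 1), H0 i with hH
  have hHf : H.Finite := hG.union ((Finset.finite_toSet _).biUnion fun i _ => hH0 i)
  have hHL : ∀ g ∈ H, LC h y g := by
    rintro g (hg | hg)
    · exact hGL g hg
    · obtain ⟨i, _, hg⟩ := mem_iUnion₂.mp hg
      exact hH0L i g hg
  obtain ⟨τ, hτ, hτa⟩ : ∃ τ > 0, ∀ w, ‖w - (u : A)‖ ≤ τ → ∀ i ≤ n,
      ∃ p ∈ StarAlgebra.adjoin ℂ (φ '' H ∪ {w}), ‖p - star s.V * a i * s.V‖ ≤ 1 / (n + 1) := by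
    have : ∀ᶠ w in 𝓝 (u : A), ∀ i ∈ Finset.range (n + 1),
        ∃ p ∈ StarAlgebra.adjoin ℂ (φ '' H ∪ {w}), ‖p - star s.V * a i * s.V‖ ≤ 1 / (n + 1) := by
      refine (Finset.eventually_all _).mpr fun i hi => ?_
      have hsub : H0 i ⊆ H := fun g hg => Or.inr (mem_iUnion₂.mpr ⟨i, hi, hg⟩)
      obtain ⟨P, hP1, hP2⟩ := adjoin_move (𝓝 (u : A)) (φ '' H) id tendsto_id
        (StarAlgebra.adjoin_mono (union_subset_union_left _ (image_mono hsub)) (hp i))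
      have := ((hP2.sub_const (star s.V * a i * s.V)).norm).eventually (gt_mem_nhds (hpa i))
      exact this.mono fun w hw => ⟨P w, hP1 w, hw.le⟩
    obtain ⟨τ, hτ, h2⟩ := Metric.eventually_nhds_iff.mp this
    exact ⟨τ / 2, by positivity, fun w hw i hi => h2 (by rw [dist_eq_norm]; linarith) i
      (by simp; omega)⟩
  choose W w G' k hW hcomm hn' hloc hG' hHG' hG'L hpal hpi using fun i : ℕ =>
    stage hc hmin y hHf hHL (show (0 : ℝ) < 1 / ((i : ℝ) + 1) by positivity)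
  have hu : Tendsto (fun i => W i * (u * w i) * star (W i)) atTop (𝓝 (u : A)) := by
    rw [tendsto_iff_norm_sub_tendsto_zero]
    exact squeeze_zero (fun _ => norm_nonneg _) hn' tendsto_one_div_add_atTop_nhds_zero_nat
  have hT : ∀ T ∈ Pal φ u y s.G, Tendsto (fun i => W i * T * star (W i)) atTop (𝓝 T) := by
    intro T hT
    refine conj_lim_self atTop W hW _ ?_ hT
    rintro _ (⟨g, hg, rfl⟩ | ⟨c, hc', h0, rfl⟩)
    · simp only [conj_commute (hW _) (hcomm _ g (Or.inl hg))]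
      exact tendsto_const_nhds
    · refine (hu.mul_const (φ c)).congr fun i => ?_
      conv_rhs => rw [← (hloc i).mul_eq (Or.inl hc') h0, ← mul_assoc (u : A), conj_mul (hW i),
        conj_commute (hW _) (hcomm _ c (Or.inl hc'))]
  have hε' : 0 < min s.ε τ / 2 := by positivity
  have hev : ∀ᶠ i in atTop, ∀ j ∈ Finset.range (n + 1),
      ‖W i * (u * s.η j * w i) * star (W i) - u * s.η j‖ ≤ min s.ε τ / 2 := by
    refine (Finset.eventually_all _).mpr fun j _ => ?_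
    have h2 := (hT _ (hP j)).mul hu
    have h3 : (u : A) * s.η j * star (u : A) * u = u * s.η j := by
      rw [mul_assoc, Unitary.star_mul_self_of_mem u.2, mul_one]
    rw [h3, tendsto_iff_norm_sub_tendsto_zero] at h2
    refine (h2.eventually (ge_mem_nhds hε')).mono fun i hi => ?_
    rwa [← conj_mul (hW i), ← mul_assoc _ (u : A), h3] at hi
  obtain ⟨i, hi⟩ := hev.exists
  refine ⟨⟨G' i, s.V * W i, fun j => if j ≤ n then s.η j * w i else 1, min s.ε τ / 2⟩,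
    ⟨hG' i, hG'L i, mul_mem hV (hW i), hε', fun j => ?_, fun j hj => if_neg (by omega)⟩,
    ⟨H, W i, w i, k i, τ⟩, subset_union_left, hHG' i, rfl, hW i, hcomm i, hloc i,
    fun j hj => if_pos hj, hpal i, hpi i, ?_, ?_, fun j hj => hi j (by simp; omega), hτa⟩
  · simp only
    split_ifs
    · rw [conj_mul u.2]
      exact mul_mem (Pal_mono φ u y (subset_union_left.trans (hHG' i)) (hP j)) (hpal i)
    · rw [mul_one, Unitary.mul_star_self_of_mem u.2]; exact one_mem _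
  · have := min_le_left s.ε τ
    simp only; linarith
  · have := min_le_right s.ε τ
    simp only; linarith

end Pool.Agent.Lib.MP_f09365_an
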