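import Pool.Agent.Lib.MP_f09365_an.Mon
import Pool.Agent.Lib.MP_f09365_an.Berg

namespace Pool.Agent.Lib.MP_f09365_an

variable {A : Type*} [CStarAlgebra A]

lemma commute_star_of_unitary {b Z : A} (hZ : Z ∈ unitary A) (h : Commute b Z) :
    Commute (star b) Z := by
  have h1 : Commute b (star Z) := by
    calc b * star Z = star Z * (Z * b) * star Z := by
          rw [← mul_assoc, Unitary.star_mul_self_of_mem hZ, one_mul]
      _ = star Z * b := by
          rw [← h.eq, mul_assoc, mul_assoc, Unitary.mul_star_self_of_mem hZ, mul_one]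
  simpa using h1.star_star

lemma v_mem {u C S T : A} (hC : IsSelfAdjoint C) (hS : IsSelfAdjoint S) (M : ℕ)
    (B : StarSubalgebra ℂ A) (h1 : u * C ∈ B) (h2 : S ∈ B) (h3 : T ∈ B)
    (hT : u * S * star u = T) : u * star (zz u C S M) ∈ B := by
  have : u * star (zz u C S M) = u * C - T * geo (star (u * C)) M * S := by
    rw [star_zz u hC hS, zz, chan, ← hT, star_mul, hC.star_eq]
    have : geo (star u * C) M * star u = star u * geo (C * star u) M := by
      simp only [geo, Finset.mul_sum, Finset.sum_mul, mul_pow_swap]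
    rw [this]; noncomm_ring
  rw [this]
  refine sub_mem h1 (mul_mem (mul_mem h3 ?_) h2)
  exact sum_mem fun j _ => pow_mem (star_mem h1) j

lemma tower_PI {u C S e : A} (hu : u ∈ unitary A) (hC : IsSelfAdjoint C) (hS : IsSelfAdjoint S)
    (he : IsSelfAdjoint e) {M N : ℕ} (hz : zz u C S M ∈ unitary A) (hM : (star u * C) ^ M = 0)
    (h0C : C * e = 0) (h0S : S * e = e)
    (hiC : ∀ i, 1 ≤ i → i ≤ N → C * star u ^ i * e = star u ^ i * e)
    (hiS : ∀ i, 1 ≤ i → i ≤ N → S * star u ^ i * e = 0)
    (hJC : C * star u ^ (N + 1) * e = 0)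
    (hJS : S * star u ^ (N + 1) * e = star u ^ (N + 1) * e)
    {k : ℕ} {B : StarSubalgebra ℂ A} (hB : PI k (B : Set A)) (hSB : S ∈ B)
    (hv : u * star (zz u C S M) ∈ B) {G : Set A} (hGB : G ⊆ B)
    (hG : ∀ g ∈ G, ∀ i ≤ N, ∃ c : ℂ, g * star u ^ i * e = c • (star u ^ i * e) ∧
      e * u ^ i * g = c • (e * u ^ i))
    {ζ : A} (hζ : ζ ∈ unitary A) (heζ : Her e (ζ - 1)) :
    PI k (StarAlgebra.adjoin ℂ (G ∪ {u * star (zz u C S M) * ζ}) : Set A) := by
  set v := u * star (zz u C S M) with hvd
  have hvu : v ∈ unitary A := mul_mem hu (Unitary.star_mem hz)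
  set w := star u with hw
  have hwu : w ∈ unitary A := Unitary.star_mem hu
  have hsw : star w = u := star_star u
  have huw : u * w = 1 := Unitary.mul_star_self_of_mem hu
  have heS : e * S = e := by simpa [he.star_eq, hS.star_eq] using congrArg star h0S
  have hvz : v = u * (C + S * -(geo (w * C) M * w * S)) := by rw [hvd, star_zz u hC hS]; rfl
  have ho : ∀ j, 1 ≤ j → j ≤ N → e * w ^ j * e = 0 := fun j h1 h2 => by
    calc e * w ^ j * e = e * S * w ^ j * e := by rw [heS]
      _ = e * (S * w ^ j * e) := by simp only [mul_assoc]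
      _ = 0 := by rw [hiS j h1 h2, mul_zero]
  have v0 : v * e = -(w ^ N * e) := by
    have e1 : (1 - w * C) * ∑ j ∈ Finset.range (N + 1), w ^ (j + 1) * e = w * S * e := by
      rw [sub_mul, one_mul, Finset.mul_sum, Finset.sum_range_succ',
        Finset.sum_range_succ (fun j => w * C * (w ^ (j + 1) * e))]
      have e2 : ∀ j ∈ Finset.range N, w * C * (w ^ (j + 1) * e) = w ^ (j + 1 + 1) * e := by
        intro j hj
        rw [mul_assoc, ← mul_assoc C, hiC (j + 1) (by omega) (by simp at hj; omega),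
          pow_succ' w (j + 1), mul_assoc]
      rw [Finset.sum_congr rfl e2, mul_assoc w C, ← mul_assoc C, hJC, mul_assoc w S, h0S]
      simp
    have e3 : geo (w * C) M * w * S * e = ∑ j ∈ Finset.range (N + 1), w ^ (j + 1) * e := by
      rw [mul_assoc, mul_assoc, ← mul_assoc w, ← e1, ← mul_assoc, geo_mul hM, one_mul]
    have e4 : S * ∑ j ∈ Finset.range (N + 1), w ^ (j + 1) * e = w ^ (N + 1) * e := by
      rw [Finset.mul_sum, Finset.sum_range_succ, ← mul_assoc, hJS, Finset.sum_eq_zero, zero_add]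
      intro j hj
      rw [← mul_assoc, hiS (j + 1) (by omega) (by simp at hj; omega)]
    rw [hvz, mul_assoc, add_mul, h0C, zero_add, mul_assoc, neg_mul, e3, mul_neg, e4, mul_neg,
      pow_succ', ← mul_assoc, ← mul_assoc, huw, one_mul]
  have vi : ∀ i < N, v * (w ^ (i + 1) * e) = w ^ i * e := by
    intro i hi
    have e1 := hiC (i + 1) (by omega) (by omega)
    have e2 := hiS (i + 1) (by omega) (by omega)
    rw [mul_assoc] at e1 e2
    rw [hvz, mul_assoc, add_mul, e1, mul_assoc S, neg_mul, mul_assoc _ S, e2, mul_zero, neg_zero,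
      mul_zero, add_zero, pow_succ', ← mul_assoc, ← mul_assoc, huw, one_mul]
  have v0' : e * u ^ N * v = -e := by
    have e1 : star v * (w ^ N * e) = -e := by
      rw [← neg_neg (w ^ N * e), ← v0, mul_neg, ← mul_assoc, Unitary.star_mul_self_of_mem hvu,
        one_mul]
    simpa [he.star_eq, hsw] using congrArg star e1
  have vi' : ∀ i < N, e * u ^ i * v = e * u ^ (i + 1) := by
    intro i hi
    have e1 : star v * (w ^ i * e) = w ^ (i + 1) * e := by
      rw [← vi i hi, ← mul_assoc, Unitary.star_mul_self_of_mem hvu, one_mul]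
    simpa [he.star_eq, hsw] using congrArg star e1
  set d := ζ - 1 with hd
  have hZu := one_add_cj_sum_mem hwu he ho 0 (fun _ => ζ) (fun _ => heζ) (fun _ => hζ)
  simp only [add_zero, ← hd] at hZu
  set Z := 1 + ∑ j ∈ Finset.range (N + 1), cj w j d with hZ
  have hcj : ∀ j, cj w j d = w ^ j * e * d * (e * u ^ j) := fun j => by
    rw [cj, hsw, mul_assoc _ e d, heζ.1, mul_assoc _ d (e * _), ← mul_assoc d, heζ.2, mul_assoc]
  have hlev : ∀ g : A, (∀ i ≤ N, ∃ c : ℂ, g * w ^ i * e = c • (w ^ i * e) ∧
      e * u ^ i * g = c • (e * u ^ i)) → Commute g Z := by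
    intro g hg
    refine (Commute.one_right g).add_right (Commute.sum_right _ _ _ fun j hj => ?_)
    obtain ⟨c, h2, h3⟩ := hg j (by simp at hj; omega)
    rw [hcj]
    calc g * (w ^ j * e * d * (e * u ^ j)) = (g * w ^ j * e) * d * (e * u ^ j) := by
          simp only [mul_assoc]
      _ = w ^ j * e * d * (e * u ^ j * g) := by
          rw [h2, h3, smul_mul_assoc, smul_mul_assoc, mul_smul_comm]
      _ = _ := by simp only [mul_assoc]
  have hSZ : Commute S Z := hlev S fun i hi => by
    rcases Nat.eq_zero_or_pos i with rfl | h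
    · exact ⟨1, by simp [h0S], by simp [heS]⟩
    · refine ⟨0, by simp [hiS i h hi], ?_⟩
      simpa [he.star_eq, hsw, hS.star_eq, mul_assoc] using congrArg star (hiS i h hi)
  have hvZ : Commute v Z := by
    refine (Commute.one_right v).add_right ?_
    rw [Commute, SemiconjBy, Finset.mul_sum, Finset.sum_mul, Finset.sum_range_succ',
      Finset.sum_range_succ]
    congr 1
    · refine Finset.sum_congr rfl fun j hj => ?_
      have hj := Finset.mem_range.mp hj
      rw [hcj, hcj, mul_assoc _ _ v, vi' j hj, ← vi j hj]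
      simp only [mul_assoc]
    · rw [hcj, hcj, mul_assoc _ _ v, v0', pow_zero, pow_zero, one_mul, mul_one, ← mul_assoc,
        ← mul_assoc, v0]
      simp
  have hSd : S * (Z - 1) = d := by
    rw [hZ, add_sub_cancel_left, Finset.mul_sum, Finset.sum_range_succ', Finset.sum_eq_zero]
    · rw [hcj, pow_zero, pow_zero, one_mul, mul_one, ← mul_assoc, ← mul_assoc, h0S, heζ.1, heζ.2,
        zero_add]
    · intro j hj
      rw [hcj, ← mul_assoc S, ← mul_assoc S, ← mul_assoc S,
        hiS (j + 1) (by omega) (by simp at hj; omega)]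
      simp
  have hB0 : StarAlgebra.adjoin ℂ (G ∪ {S, v}) ≤ B := by
    refine StarAlgebra.adjoin_le ?_
    rintro x (hx | rfl | rfl)
    exacts [hGB hx, hSB, hv]
  obtain ⟨D, hD, hBD, hZD⟩ := PI.adjoin_central (hB.mono hB0) hZu (fun b hb => by
    induction hb using StarAlgebra.adjoin_induction with
    | mem x hx =>
      rcases hx with hx | rfl | rfl
      exacts [hlev x (hG x hx), hSZ, hvZ]
    | algebraMap r => exact Algebra.commute_algebraMap_left r Z
    | add x y _ _ hx hy => exact hx.add_left hy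
    | mul x y _ _ hx hy => exact hx.mul_left hy
    | star x _ hx => exact commute_star_of_unitary hZu hx)
  refine hD.mono (StarAlgebra.adjoin_le ?_)
  have hsub := StarAlgebra.subset_adjoin ℂ (G ∪ {S, v})
  rintro x (hx | rfl)
  · exact hBD (hsub (Or.inl hx))
  · refine mul_mem (hBD (hsub (by simp))) ?_
    have : ζ = 1 + S * (Z - 1) := by rw [hSd, hd]; abel
    rw [this]
    exact add_mem (one_mem D) (mul_mem (hBD (hsub (by simp))) (sub_mem hZD (one_mem D)))

end Pool.Agent.Lib.MP_f09365_an
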